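import Pool.Agent.Lib.MP_1c30b8_co.Series

/-!
# The ring of symmetric functions in power sum coordinates and the ideals `I n L`
-/

open PowerSeries
open Finset.HasAntidiagonal (antidiagonal mem_antidiagonal)

namespace Pool.Agent.Lib.MP_1c30b8_co

/-- The polynomial ring in the variables `p_1, p_2, ...`; the variable `X j` is `p_{j+1}`. -/
abbrev P := MvPolynomial ℕ ℚ

/-- `p_{j+1}` as the coefficient of `t^j`. -/
noncomputable def pS : P⟦X⟧ := PowerSeries.mk fun j => MvPolynomial.X j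

/-- The series `exp (- sum p_j t^j / j)`. -/
noncomputable def aS : P⟦X⟧ := E (-pS)

/-- The series `exp (sum p_j t^j / j)`. -/
noncomputable def bS : P⟦X⟧ := E pS

/-- Coefficients of `aS`. -/
noncomputable def a (n : ℕ) : P := coeff n aS

/-- Coefficients of `bS`. -/
noncomputable def b (n : ℕ) : P := coeff n bS

/-- The power sum `p_j`, with `p_0 = 0`. -/
noncomputable def p : ℕ → P
  | 0 => 0
  | (j + 1) => MvPolynomial.X j

theorem p_succ (j : ℕ) : p (j + 1) = MvPolynomial.X j := rfl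

theorem p_zero : p 0 = 0 := rfl

theorem a_zero : a 0 = 1 := by
  rw [a, aS, coeff_zero_eq_constantCoeff_apply, E_const]

theorem b_zero : b 0 = 1 := by
  rw [b, bS, coeff_zero_eq_constantCoeff_apply, E_const]

theorem mk_p : PowerSeries.mk p = X * pS := by
  ext n
  rcases n with _ | n
  · simp [p]
  · rw [coeff_succ_X_mul, coeff_mk, pS, coeff_mk, p]

theorem euler_coeff (F : P⟦X⟧) (M : ℕ) : coeff M (X * d⁄dX P F) = (M : P) * coeff M F := by
  rcases M with _ | M
  · simp
  · rw [coeff_succ_X_mul, coeff_derivative]; push_cast; ring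

theorem newton_b (M : ℕ) :
    (M : P) * b M = ∑ x ∈ antidiagonal M, p x.1 * b x.2 := by
  rw [b, ← euler_coeff, bS, E_deriv, ← mul_assoc, ← mk_p, coeff_mul]
  simp only [coeff_mk]
  rfl

theorem newton_a (M : ℕ) :
    (M : P) * a M = - ∑ x ∈ antidiagonal M, p x.1 * a x.2 := by
  rw [a, ← euler_coeff, aS, E_deriv]
  have : (X : P⟦X⟧) * (-pS * E (-pS)) = - (PowerSeries.mk p * E (-pS)) := by rw [mk_p]; ring
  rw [this, map_neg, coeff_mul]
  simp only [coeff_mk]
  rfl

theorem aS_mul_bS : aS * bS = 1 := by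
  rw [aS, bS, mul_comm, E_mul_neg]

theorem sum_a_b (M : ℕ) (hM : M ≠ 0) : ∑ x ∈ antidiagonal M, a x.1 * b x.2 = 0 := by
  have := congrArg (coeff M) aS_mul_bS
  rw [coeff_mul, coeff_one, if_neg hM] at this
  exact this

/-- The ideal generated by `a_i`, `i > n`, and `b_j`, `j > L`. -/
noncomputable def I (n L : ℕ) : Ideal P := Ideal.span (a '' Set.Ioi n ∪ b '' Set.Ioi L)

theorem a_mem_I {n i : ℕ} (L : ℕ) (h : n < i) : a i ∈ I n L :=
  Ideal.subset_span (Or.inl ⟨i, h, rfl⟩)

theorem b_mem_I {L j : ℕ} (n : ℕ) (h : L < j) : b j ∈ I n L :=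
  Ideal.subset_span (Or.inr ⟨j, h, rfl⟩)

theorem I_le_iff {n L : ℕ} {J : Ideal P} :
    I n L ≤ J ↔ (∀ i, n < i → a i ∈ J) ∧ (∀ j, L < j → b j ∈ J) := by
  rw [I, Ideal.span_le, Set.union_subset_iff, Set.image_subset_iff, Set.image_subset_iff]
  rfl

theorem I_mono {n n' L L' : ℕ} (hn : n' ≤ n) (hL : L' ≤ L) : I n L ≤ I n' L' := by
  rw [I_le_iff]
  exact ⟨fun i hi => a_mem_I _ (by omega), fun j hj => b_mem_I _ (by omega)⟩

theorem a_mul_b_mem (n L : ℕ) (h : n + L ≠ 0) : a n * b L ∈ I n L := by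
  have h1 := sum_a_b (n + L) h
  have hm : (n, L) ∈ antidiagonal (n + L) := by simp
  rw [← Finset.add_sum_erase _ _ hm] at h1
  have h2 : a n * b L = - ∑ x ∈ (antidiagonal (n + L)).erase (n, L), a x.1 * b x.2 := by
    linear_combination h1
  rw [h2]
  refine neg_mem (Ideal.sum_mem _ fun x hx => ?_)
  rw [Finset.mem_erase, mem_antidiagonal] at hx
  obtain ⟨hx1, hx2⟩ := hx
  rcases lt_or_ge n x.1 with h | h
  · exact Ideal.mul_mem_right _ _ (a_mem_I _ h)
  · rcases lt_or_ge L x.2 with h' | h'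
    · exact Ideal.mul_mem_left _ _ (b_mem_I _ h')
    · exact absurd (Prod.ext (by simp only; omega) (by simp only; omega)) hx1

theorem mul_mem_of_span {J J' : Ideal P} (c : P) (h : ∀ y ∈ J, c * y ∈ J') :
    ∀ y ∈ J, c * y ∈ J' := h

theorem b_mul_mem {n L : ℕ} {y : P} (hy : y ∈ I n L) : b L * y ∈ I (n + 1) L := by
  have h : I n L ≤ Submodule.comap (LinearMap.mulLeft P (b L)) (I (n + 1) L) := by
    rw [I_le_iff]
    refine ⟨fun i hi => ?_, fun j hj => ?_⟩
    · rw [Submodule.mem_comap, LinearMap.mulLeft_apply, mul_comm]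
      rcases eq_or_ne i (n + 1) with rfl | h
      · exact a_mul_b_mem _ _ (by omega)
      · exact Ideal.mul_mem_right _ _ (a_mem_I _ (by omega))
    · rw [Submodule.mem_comap, LinearMap.mulLeft_apply]
      exact Ideal.mul_mem_left _ _ (b_mem_I _ hj)
  exact h hy

theorem a_mul_mem {n L : ℕ} {y : P} (hy : y ∈ I n L) : a n * y ∈ I n (L + 1) := by
  have h : I n L ≤ Submodule.comap (LinearMap.mulLeft P (a n)) (I n (L + 1)) := by
    rw [I_le_iff]
    refine ⟨fun i hi => ?_, fun j hj => ?_⟩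
    · rw [Submodule.mem_comap, LinearMap.mulLeft_apply]
      exact Ideal.mul_mem_left _ _ (a_mem_I _ hi)
    · rw [Submodule.mem_comap, LinearMap.mulLeft_apply]
      rcases eq_or_ne j (L + 1) with rfl | h
      · exact a_mul_b_mem _ _ (by omega)
      · exact Ideal.mul_mem_left _ _ (b_mem_I _ (by omega))
  exact h hy

theorem I_succ_left (n L : ℕ) : I n L = I (n + 1) L ⊔ Ideal.span {a (n + 1)} := by
  apply le_antisymm
  · rw [I_le_iff]
    refine ⟨fun i hi => ?_, fun j hj => Ideal.mem_sup_left (b_mem_I _ hj)⟩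
    rcases eq_or_ne i (n + 1) with rfl | h
    · exact Ideal.mem_sup_right (Ideal.subset_span rfl)
    · exact Ideal.mem_sup_left (a_mem_I _ (by omega))
  · rw [sup_le_iff]
    refine ⟨I_mono (by omega) le_rfl, ?_⟩
    rw [Ideal.span_singleton_le_iff_mem]
    exact a_mem_I _ (by omega)

theorem I_succ_right (n L : ℕ) : I n L = I n (L + 1) ⊔ Ideal.span {b (L + 1)} := by
  apply le_antisymm
  · rw [I_le_iff]
    refine ⟨fun i hi => Ideal.mem_sup_left (a_mem_I _ hi), fun j hj => ?_⟩
    rcases eq_or_ne j (L + 1) with rfl | h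
    · exact Ideal.mem_sup_right (Ideal.subset_span rfl)
    · exact Ideal.mem_sup_left (b_mem_I _ (by omega))
  · rw [sup_le_iff]
    refine ⟨I_mono le_rfl (by omega), ?_⟩
    rw [Ideal.span_singleton_le_iff_mem]
    exact b_mem_I _ (by omega)

/-! ### The involution -/

/-- The involution `p_j ↦ - p_j`. -/
noncomputable def tau : P →ₐ[ℚ] P := MvPolynomial.aeval fun j => - MvPolynomial.X j

theorem tau_tau (x : P) : tau (tau x) = x := by
  have : tau.comp tau = AlgHom.id ℚ P := by
    apply MvPolynomial.algHom_ext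
    intro i
    simp [tau]
  exact DFunLike.congr_fun this x

theorem map_tau_pS : PowerSeries.map (tau : P →+* P) pS = - pS := by
  ext n
  simp [pS, tau]

theorem tau_a (n : ℕ) : tau (a n) = b n := by
  have h : PowerSeries.map (tau : P →+* P) aS = bS := by
    rw [aS, E_map, map_neg, map_tau_pS, neg_neg, bS]
  have := congrArg (coeff n) h
  rwa [coeff_map] at this

theorem tau_b (n : ℕ) : tau (b n) = a n := by
  rw [← tau_a, tau_tau]

theorem tau_mem {n L : ℕ} {y : P} (hy : y ∈ I n L) : tau y ∈ I L n := by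
  have h : I n L ≤ Ideal.comap (tau : P →+* P) (I L n) := by
    rw [I_le_iff]
    refine ⟨fun i hi => ?_, fun j hj => ?_⟩
    · rw [Ideal.mem_comap]
      have : (tau : P →+* P) (a i) = b i := tau_a i
      rw [this]; exact b_mem_I _ hi
    · rw [Ideal.mem_comap]
      have : (tau : P →+* P) (b j) = a j := tau_b j
      rw [this]; exact a_mem_I _ hj
  exact h hy

theorem tau_mem_iff {n L : ℕ} {y : P} : tau y ∈ I L n ↔ y ∈ I n L :=
  ⟨fun h => by simpa [tau_tau] using tau_mem h, tau_mem⟩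

end Pool.Agent.Lib.MP_1c30b8_co
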