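import Mathlib

/-!
# Gaussian binomial coefficients and the recursions of the Hilbert series
-/

open Polynomial

namespace Pool.Agent.Lib.MP_1c30b8_co

/-- Gaussian binomial coefficients by the Pascal recursion. -/
noncomputable def qb : ℕ → ℕ → ℚ[X]
  | _, 0 => 1
  | 0, (_ + 1) => 0
  | (n + 1), (i + 1) => qb n i + X ^ (i + 1) * qb n (i + 1)

theorem qb_zero_right (n : ℕ) : qb n 0 = 1 := by
  cases n <;> rfl

theorem qb_zero_succ (i : ℕ) : qb 0 (i + 1) = 0 := rfl

theorem qb_succ_succ (n i : ℕ) : qb (n + 1) (i + 1) = qb n i + X ^ (i + 1) * qb n (i + 1) := rfl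

theorem qb_eq_zero {n i : ℕ} (h : n < i) : qb n i = 0 := by
  induction n generalizing i with
  | zero =>
    obtain ⟨j, rfl⟩ := Nat.exists_eq_succ_of_ne_zero (by omega : i ≠ 0)
    rfl
  | succ n ih =>
    obtain ⟨j, rfl⟩ := Nat.exists_eq_succ_of_ne_zero (by omega : i ≠ 0)
    rw [Nat.succ_eq_add_one, qb_succ_succ, ih (by omega), ih (by omega)]
    ring

/-- Closed form of the first Hilbert series. -/
noncomputable def ac (m n L : ℕ) : ℚ[X] :=
  ∑ i ∈ Finset.range m, X ^ ((n - i) * (L - i)) * qb n i * qb L i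

/-- Closed form of the second Hilbert series. -/
noncomputable def bc (m n L : ℕ) : ℚ[X] :=
  ∑ i ∈ Finset.range (m - 1), X ^ ((n - (i + 1)) * (L - i)) * qb (n - 1) i * qb (L + 1) (i + 1)

/-- Closed form of the increments. -/
noncomputable def kc (m N L : ℕ) : ℚ[X] :=
  ∑ i ∈ Finset.range m, X ^ ((N - i) * (L - i) + i + 1) * qb N (i + 1) * qb L i

theorem ac_rec (m n L : ℕ) :
    ac m (n + 1) (L + 1) = bc m (n + 1) L + X ^ (L + 1) * ac m n (L + 1) := by
  rcases m with _ | m
  · simp [ac, bc]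
  · rw [ac, bc, ac, Finset.sum_range_succ', Finset.sum_range_succ' _ m, Nat.add_sub_cancel,
      mul_add, ← add_assoc, Finset.mul_sum, ← Finset.sum_add_distrib]
    congr 1
    · refine Finset.sum_congr rfl fun i _ => ?_
      rw [Nat.add_sub_add_right, Nat.add_sub_add_right, Nat.add_sub_cancel, qb_succ_succ n i]
      by_cases hi : L < i
      · rw [qb_eq_zero (by omega : L + 1 < i + 1)]; ring
      · by_cases hn : n < i + 1
        · rw [qb_eq_zero hn]; ring
        · obtain ⟨c, rfl⟩ := Nat.exists_eq_add_of_le (not_lt.1 hn)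
          obtain ⟨e, rfl⟩ := Nat.exists_eq_add_of_le (not_lt.1 hi)
          rw [show i + 1 + c - i = c + 1 by omega, show i + e - i = e by omega,
            show i + 1 + c - (i + 1) = c by omega]
          ring
    · simp only [Nat.sub_zero, qb_zero_right, mul_one]
      rw [← pow_add]
      congr 1
      ring

theorem bc_rec (m n L : ℕ) :
    bc (m + 1) (n + 1) (L + 1) = ac m n (L + 1) + X ^ (n + 1) * bc (m + 1) (n + 1) L := by
  rw [bc, ac, bc, Nat.add_sub_cancel, Nat.add_sub_cancel, Finset.mul_sum,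
    ← Finset.sum_add_distrib]
  refine Finset.sum_congr rfl fun i _ => ?_
  rw [Nat.add_sub_add_right, qb_succ_succ (L + 1) i]
  by_cases hi : L + 1 < i + 1
  · rw [qb_eq_zero hi]; ring
  · by_cases hn : n < i
    · rw [qb_eq_zero hn]; ring
    · obtain ⟨c, rfl⟩ := Nat.exists_eq_add_of_le (not_lt.1 hn)
      obtain ⟨e, rfl⟩ := Nat.exists_eq_add_of_le (by omega : i ≤ L)
      rw [show i + c - i = c by omega, show i + e + 1 - i = e + 1 by omega,
        show i + e - i = e by omega]
      ring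

theorem kc_rec (m N L : ℕ) : kc m (N + 1) L = X ^ (L + 1) * (ac m N L + kc m N L) := by
  rw [kc, kc, ac, ← Finset.sum_add_distrib, Finset.mul_sum]
  refine Finset.sum_congr rfl fun i _ => ?_
  rw [qb_succ_succ N i]
  by_cases hi : L < i
  · rw [qb_eq_zero hi]; ring
  · obtain ⟨e, rfl⟩ := Nat.exists_eq_add_of_le (not_lt.1 hi)
    by_cases hn : N < i
    · rw [qb_eq_zero hn, qb_eq_zero (by omega : N < i + 1)]; ring
    · obtain ⟨c, rfl⟩ := Nat.exists_eq_add_of_le (not_lt.1 hn)
      rw [show i + c - i = c by omega, show i + e - i = e by omega,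
        show i + c + 1 - i = c + 1 by omega]
      ring

theorem kc_zero (m L : ℕ) : kc m 0 L = 0 := by
  rw [kc]
  refine Finset.sum_eq_zero fun i _ => ?_
  rw [qb_zero_succ]; ring

theorem ac_zero_left (m L : ℕ) : ac (m + 1) 0 L = 1 := by
  rw [ac, Finset.sum_range_succ', Finset.sum_eq_zero]
  · simp [qb_zero_right]
  · intro i _; rw [qb_zero_succ]; ring

theorem ac_zero_right (m n : ℕ) : ac (m + 1) n 0 = 1 := by
  rw [ac, Finset.sum_range_succ', Finset.sum_eq_zero]
  · simp [qb_zero_right]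
  · intro i _; rw [qb_zero_succ]; ring

theorem bc_zero_right (m n : ℕ) : bc (m + 2) (n + 1) 0 = 1 := by
  rw [bc, show m + 2 - 1 = m + 1 by omega, Finset.sum_range_succ', Finset.sum_eq_zero]
  · simp [qb_zero_right, qb_succ_succ, qb_zero_succ]
  · intro i _
    rw [qb_eq_zero (by omega : 0 + 1 < i + 1 + 1)]; ring

end Pool.Agent.Lib.MP_1c30b8_co
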