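import Pool.Agent.Lib.MP_1c30b8_co.Dim
import Pool.Agent.Lib.MP_1c30b8_co.QBin

/-!
# Upper bounds of the Hilbert series
-/

open Polynomial
open Finset.HasAntidiagonal (antidiagonal mem_antidiagonal)

namespace Pool.Agent.Lib.MP_1c30b8_co

theorem sub_const_mem {J : Ideal P} (h : ∀ j, (MvPolynomial.X j : P) ∈ J) (x : P) :
    x - MvPolynomial.C (MvPolynomial.constantCoeff x) ∈ J := by
  induction x using MvPolynomial.induction_on with
  | C c => rw [MvPolynomial.constantCoeff_C, sub_self]; exact zero_mem _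
  | add x y hx hy =>
    rw [map_add, map_add]
    have := add_mem hx hy
    convert this using 1
    ring
  | mul_X x j hx =>
    rw [map_mul, MvPolynomial.constantCoeff_X, mul_zero, map_zero, sub_zero]
    exact Ideal.mul_mem_left _ _ (h j)

theorem const_of_mem_Pd {x : P} {d : ℕ} (hx : x ∈ Pd d) (hd : d ≠ 0) :
    MvPolynomial.constantCoeff x = 0 := by
  rw [MvPolynomial.constantCoeff_eq]
  refine MvPolynomial.IsWeightedHomogeneous.coeff_eq_zero hx 0 ?_
  rw [map_zero]
  exact fun h => hd h.symm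

theorem mem_of_pos {J : Ideal P} (h : ∀ j, (MvPolynomial.X j : P) ∈ J) {x : P} {d : ℕ}
    (hx : x ∈ Pd d) (hd : d ≠ 0) : x ∈ J := by
  have := sub_const_mem h x
  rw [const_of_mem_Pd hx hd, map_zero, sub_zero] at this
  exact this

theorem X_mem_zero_left (L j : ℕ) : (MvPolynomial.X j : P) ∈ I 0 L := by
  have h := newton_a (j + 1)
  rw [← Finset.add_sum_erase _ _ (by simp : (j + 1, 0) ∈ antidiagonal (j + 1)), a_zero, mul_one,
    p_succ] at h
  have h2 : (MvPolynomial.X j : P) = - (((j + 1 : ℕ) : P) * a (j + 1)) -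
      ∑ x ∈ (antidiagonal (j + 1)).erase (j + 1, 0), p x.1 * a x.2 := by
    linear_combination h
  rw [h2]
  refine sub_mem (neg_mem (Ideal.mul_mem_left _ _ (a_mem_I _ (by omega))))
    (Ideal.sum_mem _ fun x hx => ?_)
  rw [Finset.mem_erase, mem_antidiagonal] at hx
  refine Ideal.mul_mem_left _ _ (a_mem_I _ ?_)
  by_contra h0
  exact hx.1 (Prod.ext (by simp only; omega) (by simp only; omega))

theorem X_mem_zero_right (n j : ℕ) : (MvPolynomial.X j : P) ∈ I n 0 := by
  have h := tau_mem (X_mem_zero_left n j)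
  rw [tau, MvPolynomial.aeval_X] at h
  exact neg_mem_iff.1 h

theorem dm_triv {V : Submodule ℚ P} {J : Ideal P} (h : ∀ j, (MvPolynomial.X j : P) ∈ J) {d : ℕ}
    (hV : V ≤ Pd d) : (dm V J : ℚ) ≤ (1 : ℚ[X]).coeff d := by
  rw [coeff_one]
  split_ifs with hd
  · have : dm V J ≤ 1 := by
      apply dm_le_one 1
      intro x _
      refine ⟨MvPolynomial.constantCoeff x, ?_⟩
      have := sub_const_mem h x
      rwa [← MvPolynomial.algebraMap_eq, Algebra.algebraMap_eq_smul_one] at this
    exact_mod_cast this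
  · rw [dm_eq_zero fun x hx => mem_of_pos h (hV hx) hd]
    simp

theorem dm_idl_inf {J : Ideal P} {W : Submodule ℚ P} : dm (idl J ⊓ W) J = 0 :=
  dm_eq_zero fun _ hx => (Submodule.mem_inf.1 hx).1

theorem BB_zero (n L : ℕ) : BB 0 n L = I n L := by
  refine le_antisymm (fun g hg => ?_) (I_le_BB _ _ _)
  rw [mem_BB] at hg
  simpa using hg Fin.elim0

theorem coeff_add_X_pow (f g : ℚ[X]) (k d : ℕ) :
    (f + X ^ k * g).coeff d = f.coeff d + if k ≤ d then g.coeff (d - k) else 0 := by
  rw [coeff_add, coeff_X_pow_mul']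

/-- The bounds of the dimensions of the graded pieces of `AA` and `BB`. -/
theorem AB_bound (s : ℕ) : ∀ n L, n + L ≤ s →
    (∀ m d, (dm (idl (AA m n L) ⊓ Pd d) (I n L) : ℚ) ≤ (ac m n L).coeff d) ∧
    (n ≠ 0 → ∀ m d, (dm (idl (BB m n L) ⊓ Pd d) (I n L) : ℚ) ≤ (bc m n L).coeff d) := by
  induction s with
  | zero =>
    intro n L hs
    obtain rfl : n = 0 := by omega
    refine ⟨fun m d => ?_, fun h => absurd rfl h⟩
    rcases m with _ | m
    · rw [AA_zero, dm_idl_inf, ac]
      simp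
    · rw [ac_zero_left]
      exact dm_triv (X_mem_zero_left L) inf_le_right
  | succ s ih =>
    intro n L hs
    refine ⟨fun m d => ?_, fun hn m d => ?_⟩
    · rcases m with _ | m
      · rw [AA_zero, dm_idl_inf, ac]
        simp
      rcases n with _ | n
      · rw [ac_zero_left]
        exact dm_triv (X_mem_zero_left L) inf_le_right
      rcases L with _ | L
      · rw [ac_zero_right]
        exact dm_triv (X_mem_zero_right (n + 1)) inf_le_right
      rw [ac_rec, coeff_add_X_pow, dm_split (I_mono le_rfl (Nat.le_succ L))]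
      push_cast
      refine add_le_add ?_ ?_
      · refine le_trans ?_ ((ih (n + 1) L (by omega)).2 (by omega) (m + 1) d)
        exact_mod_cast dm_mono _ (inf_le_inf_right _ (AA_le_BB _ _ _))
      · split_ifs with hd
        · refine le_trans ?_ ((ih n (L + 1) (by omega)).1 (m + 1) (d - (L + 1)))
          have : dm (idl (AA (m + 1) (n + 1) (L + 1)) ⊓ Pd d ⊓ idl (I (n + 1) L))
              (I (n + 1) (L + 1)) ≤
              dm (idl (AA (m + 1) n (L + 1)) ⊓ Pd (d - (L + 1))) (I n (L + 1)) := by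
            refine dm_le_of_mul (b (L + 1)) ?_ fun y hy => b_mul_mem hy
            rintro g ⟨⟨hg1, hg2⟩, hg3⟩
            have hg3' : g ∈ I (n + 1) (L + 1) ⊔ Ideal.span {b (L + 1)} := by
              rw [← I_succ_right]; exact hg3
            obtain ⟨z, hz, hgz⟩ := exists_sub_mem (b_mem_Pd (L + 1)) hg2 hg3' hd
            refine ⟨z, ⟨?_, hz⟩, hgz⟩
            refine AA_of_b_mul (m := m + 1) (n := n) (L := L + 1) ?_
            have h1 : b (L + 1) * z = g - (g - b (L + 1) * z) := by ring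
            rw [h1]
            exact sub_mem hg1 (I_le_AA _ _ _ hgz)
          exact_mod_cast this
        · rw [dm_eq_zero]
          · simp
          · rintro g ⟨⟨hg1, hg2⟩, hg3⟩
            have hg3' : g ∈ I (n + 1) (L + 1) ⊔ Ideal.span {b (L + 1)} := by
              rw [← I_succ_right]; exact hg3
            exact mem_of_not_le (b_mem_Pd (L + 1)) hg2 hg3' hd
    · obtain ⟨n, rfl⟩ := Nat.exists_eq_succ_of_ne_zero hn
      rw [Nat.succ_eq_add_one] at *
      rcases m with _ | _ | m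
      · rw [BB_zero, dm_idl_inf, bc]
        simp
      · rw [zero_add, BB_one, dm_idl_inf, bc]
        simp
      rcases L with _ | L
      · rw [show m + 1 + 1 = m + 2 by ring, bc_zero_right]
        exact dm_triv (X_mem_zero_right (n + 1)) inf_le_right
      rw [bc_rec, coeff_add_X_pow, dm_split (I_mono (Nat.le_succ n) le_rfl)]
      push_cast
      refine add_le_add ?_ ?_
      · refine le_trans ?_ ((ih n (L + 1) (by omega)).1 (m + 1) d)
        exact_mod_cast dm_mono _ (inf_le_inf_right _ (BB_le_AA _ _ _))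
      · split_ifs with hd
        · refine le_trans ?_ ((ih (n + 1) L (by omega)).2 (by omega) (m + 2) (d - (n + 1)))
          have : dm (idl (BB (m + 2) (n + 1) (L + 1)) ⊓ Pd d ⊓ idl (I n (L + 1)))
              (I (n + 1) (L + 1)) ≤
              dm (idl (BB (m + 2) (n + 1) L) ⊓ Pd (d - (n + 1))) (I (n + 1) L) := by
            refine dm_le_of_mul (a (n + 1)) ?_ fun y hy => a_mul_mem hy
            rintro g ⟨⟨hg1, hg2⟩, hg3⟩
            have hg3' : g ∈ I (n + 1) (L + 1) ⊔ Ideal.span {a (n + 1)} := by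
              rw [← I_succ_left]; exact hg3
            obtain ⟨z, hz, hgz⟩ := exists_sub_mem (a_mem_Pd (n + 1)) hg2 hg3' hd
            refine ⟨z, ⟨?_, hz⟩, hgz⟩
            refine BB_of_a_mul (m := m + 2) (n := n + 1) (L := L) ?_
            have h1 : a (n + 1) * z = g - (g - a (n + 1) * z) := by ring
            rw [h1]
            exact sub_mem hg1 (I_le_BB _ _ _ hgz)
          exact_mod_cast this
        · rw [dm_eq_zero]
          · simp
          · rintro g ⟨⟨hg1, hg2⟩, hg3⟩
            have hg3' : g ∈ I (n + 1) (L + 1) ⊔ Ideal.span {a (n + 1)} := by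
              rw [← I_succ_left]; exact hg3
            exact mem_of_not_le (a_mem_Pd (n + 1)) hg2 hg3' hd

theorem AA_bound (m n L d : ℕ) :
    (dm (idl (AA m n L) ⊓ Pd d) (I n L) : ℚ) ≤ (ac m n L).coeff d :=
  (AB_bound (n + L) n L le_rfl).1 m d

/-- The elements `g` for which `x ^ r g` comes from `A m`, where `x = b l`. -/
noncomputable def UU (m n l r : ℕ) : Submodule ℚ P :=
  Submodule.comap (LinearMap.mulLeft ℚ (b l ^ r))
    (Subalgebra.toSubmodule (A m) ⊔ idl (I (n + r) l))

theorem mem_UU {m n l r : ℕ} {g : P} :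
    g ∈ UU m n l r ↔ ∃ f ∈ A m, f - b l ^ r * g ∈ I (n + r) l := by
  rw [UU, Submodule.mem_comap, Submodule.mem_sup, LinearMap.mulLeft_apply]
  constructor
  · rintro ⟨y, hy, z, hz, h⟩
    refine ⟨y, hy, ?_⟩
    rw [← h]
    have : y - (y + z) = -z := by ring
    rw [this]
    exact neg_mem hz
  · rintro ⟨f, hf, h⟩
    refine ⟨f, hf, - (f - b l ^ r * g), neg_mem (S := Submodule ℚ P) h, ?_⟩
    ring

theorem UU_le_AA (m n L r : ℕ) : UU m n (L + 1) (r + 1) ≤ idl (AA m n L) := by
  intro g hg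
  rw [mem_UU] at hg
  obtain ⟨f, hf, h⟩ := hg
  rw [mem_idl, mem_AA]
  exact fun k => step1 hf h k

theorem UU_div {m n l r : ℕ} {g z : P} (hg : g ∈ UU m (n + 1) l (r + 1))
    (h : g - b l * z ∈ I (n + 1) l) : z ∈ UU m n l (r + 2) := by
  rw [mem_UU] at hg ⊢
  obtain ⟨f, hf, h1⟩ := hg
  refine ⟨f, hf, ?_⟩
  have h2 := b_pow_mul_mem (r + 1) h
  have h3 := add_mem h1 h2
  have e : n + 1 + (r + 1) = n + (r + 2) := by omega
  rw [e] at h3
  convert h3 using 1
  ring

theorem UU_bound (m n L r d : ℕ) :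
    (dm (UU m n (L + 1) (r + 1) ⊓ Pd d) (I n (L + 1)) : ℚ) ≤ (ac m n L + kc m n L).coeff d := by
  induction n generalizing r d with
  | zero =>
    rw [kc_zero, add_zero, dm_split (I_mono le_rfl (Nat.le_succ L))]
    have h1 : dm (UU m 0 (L + 1) (r + 1) ⊓ Pd d ⊓ idl (I 0 L)) (I 0 (L + 1)) = 0 := by
      apply dm_eq_zero
      rintro g ⟨_, hg3⟩
      have hg3' : g ∈ I 0 (L + 1) ⊔ Ideal.span {b (L + 1)} := by
        rw [← I_succ_right]; exact hg3
      have h2 : Ideal.span {b (L + 1)} ≤ I 0 (L + 1) := by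
        rw [Ideal.span_singleton_le_iff_mem]
        exact mem_of_pos (X_mem_zero_left (L + 1)) (b_mem_Pd (L + 1)) (Nat.succ_ne_zero L)
      rw [sup_of_le_left h2] at hg3'
      exact hg3'
    rw [h1, add_zero]
    refine le_trans ?_ (AA_bound m 0 L d)
    exact_mod_cast dm_mono _ (inf_le_inf_right _ (UU_le_AA _ _ _ _))
  | succ n ih =>
    rw [kc_rec, coeff_add_X_pow, dm_split (I_mono le_rfl (Nat.le_succ L))]
    push_cast
    refine add_le_add ?_ ?_
    · refine le_trans ?_ (AA_bound m (n + 1) L d)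
      exact_mod_cast dm_mono _ (inf_le_inf_right _ (UU_le_AA _ _ _ _))
    · split_ifs with hd
      · refine le_trans ?_ (ih (r + 1) (d - (L + 1)))
        have : dm (UU m (n + 1) (L + 1) (r + 1) ⊓ Pd d ⊓ idl (I (n + 1) L))
            (I (n + 1) (L + 1)) ≤
            dm (UU m n (L + 1) (r + 2) ⊓ Pd (d - (L + 1))) (I n (L + 1)) := by
          refine dm_le_of_mul (b (L + 1)) ?_ fun y hy => b_mul_mem hy
          rintro g ⟨⟨hg1, hg2⟩, hg3⟩
          have hg3' : g ∈ I (n + 1) (L + 1) ⊔ Ideal.span {b (L + 1)} := by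
            rw [← I_succ_right]; exact hg3
          obtain ⟨z, hz, hgz⟩ := exists_sub_mem (b_mem_Pd (L + 1)) hg2 hg3' hd
          exact ⟨z, ⟨UU_div hg1 hgz, hz⟩, hgz⟩
        exact_mod_cast this
      · rw [dm_eq_zero]
        · simp
        · rintro g ⟨⟨hg1, hg2⟩, hg3⟩
          have hg3' : g ∈ I (n + 1) (L + 1) ⊔ Ideal.span {b (L + 1)} := by
            rw [← I_succ_right]; exact hg3
          exact mem_of_not_le (b_mem_Pd (L + 1)) hg2 hg3' hd

/-- The degree `d` part of `A m`. -/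
noncomputable def Ad (m d : ℕ) : Submodule ℚ P := Subalgebra.toSubmodule (A m) ⊓ Pd d

instance finiteDimensional_Ad (m d : ℕ) : FiniteDimensional ℚ (Ad m d) :=
  Submodule.finiteDimensional_of_le inf_le_right

theorem main_step (m N L d : ℕ) : (dm (Ad m d) (I (N + 1) (L + 1)) : ℚ) ≤
    dm (Ad m d) (I (N + 1) L) + (kc m (N + 1) L).coeff d := by
  rw [dm_split (I_mono le_rfl (Nat.le_succ L)), kc_rec, coeff_X_pow_mul']
  push_cast
  refine add_le_add le_rfl ?_
  split_ifs with hd
  · refine le_trans ?_ (UU_bound m N L 0 (d - (L + 1)))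
    have : dm (Ad m d ⊓ idl (I (N + 1) L)) (I (N + 1) (L + 1)) ≤
        dm (UU m N (L + 1) (0 + 1) ⊓ Pd (d - (L + 1))) (I N (L + 1)) := by
      refine dm_le_of_mul (b (L + 1)) ?_ fun y hy => b_mul_mem hy
      rintro g ⟨⟨hg1, hg2⟩, hg3⟩
      have hg3' : g ∈ I (N + 1) (L + 1) ⊔ Ideal.span {b (L + 1)} := by
        rw [← I_succ_right]; exact hg3
      obtain ⟨z, hz, hgz⟩ := exists_sub_mem (b_mem_Pd (L + 1)) hg2 hg3' hd
      refine ⟨z, ⟨mem_UU.2 ⟨g, hg1, ?_⟩, hz⟩, hgz⟩
      rw [zero_add, pow_one]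
      exact hgz
    exact_mod_cast this
  · rw [dm_eq_zero]
    · simp
    · rintro g ⟨⟨hg1, hg2⟩, hg3⟩
      have hg3' : g ∈ I (N + 1) (L + 1) ⊔ Ideal.span {b (L + 1)} := by
        rw [← I_succ_right]; exact hg3
      exact mem_of_not_le (b_mem_Pd (L + 1)) hg2 hg3' hd

/-- The claimed Hilbert series. -/
noncomputable def SS (m N l : ℕ) : ℚ[X] := 1 + ∑ L ∈ Finset.range l, kc m N L

theorem upper (m N l d : ℕ) : (dm (Ad m d) (I (N + 1) l) : ℚ) ≤ (SS m (N + 1) l).coeff d := by
  induction l with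
  | zero =>
    rw [SS, Finset.sum_range_zero, add_zero]
    exact dm_triv (X_mem_zero_right (N + 1)) inf_le_right
  | succ l ih =>
    rw [SS, Finset.sum_range_succ, ← add_assoc, coeff_add, ← SS]
    exact (main_step m N l d).trans (add_le_add ih le_rfl)

theorem lower (m N l k d : ℕ) : (dm (Ad m d) (I (N + 1) (l + k)) : ℚ) - (SS m (N + 1) (l + k)).coeff d
    ≤ dm (Ad m d) (I (N + 1) l) - (SS m (N + 1) l).coeff d := by
  induction k with
  | zero => exact le_rfl
  | succ k ih =>
    refine le_trans ?_ ih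
    have h1 := main_step m N (l + k) d
    have h2 : (SS m (N + 1) (l + (k + 1))).coeff d = (SS m (N + 1) (l + k)).coeff d +
        (kc m (N + 1) (l + k)).coeff d := by
      rw [SS, ← add_assoc, Finset.sum_range_succ, ← add_assoc, coeff_add, ← SS]
    rw [h2, ← add_assoc]
    linarith

end Pool.Agent.Lib.MP_1c30b8_co
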