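import Mathlib

/-!
# The rational cohomology ring of the Grassmannian and its degree-filtered subrings

The definitions follow the wording of the problem: `l` is the number of the generators
`e_1, ..., e_l` and `k` the number of the generators `h_1, ..., h_k`.
-/

open Polynomial

namespace Pool.Agent.Lib.MP_1c30b8_co

/-- The polynomial ring on the generators `e_1, ..., e_l` and `h_1, ..., h_k`. -/
abbrev GrPoly (l k : ℕ) := MvPolynomial (Fin l ⊕ Fin k) ℚ

/-- The degrees of the generators: `deg e_i = deg h_i = i`. The index `i : Fin l` stands for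
`e_{i+1}` and the index `j : Fin k` for `h_{j+1}`. -/
def grWeight (l k : ℕ) : Fin l ⊕ Fin k → ℕ :=
  Sum.elim (fun i => (i : ℕ) + 1) (fun j => (j : ℕ) + 1)

/-- `e_i`, with `e_0 = 1` and `e_i = 0` for `i > l`. -/
noncomputable def eGen (l k : ℕ) : ℕ → GrPoly l k
  | 0 => 1
  | (i + 1) => if h : i < l then MvPolynomial.X (Sum.inl ⟨i, h⟩) else 0

/-- `h_j`, with `h_0 = 1` and `h_j = 0` for `j > k`. -/
noncomputable def hGen (l k : ℕ) : ℕ → GrPoly l k
  | 0 => 1
  | (j + 1) => if h : j < k then MvPolynomial.X (Sum.inr ⟨j, h⟩) else 0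

/-- The relation `sum_{i=0}^d (-1)^i e_i h_{d-i}`. -/
noncomputable def grRel (l k d : ℕ) : GrPoly l k :=
  ∑ i ∈ Finset.range (d + 1), (-1) ^ i * eGen l k i * hGen l k (d - i)

/-- The ideal generated by the relations for `d = 1, ..., k + l`. -/
noncomputable def grIdeal (l k : ℕ) : Ideal (GrPoly l k) :=
  Ideal.span {f | ∃ d, 1 ≤ d ∧ d ≤ k + l ∧ f = grRel l k d}

/-- The rational cohomology ring of the Grassmannian of `l`-dimensional subspaces of a complex
vector space of dimension `k + l`. -/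
abbrev GrRing (l k : ℕ) := GrPoly l k ⧸ grIdeal l k

/-- The homogeneous elements of degree `d` of `GrRing l k`. -/
noncomputable def grPiece (l k d : ℕ) : Submodule ℚ (GrRing l k) :=
  (MvPolynomial.weightedHomogeneousSubmodule ℚ (grWeight l k) d).map
    (Ideal.Quotient.mkₐ ℚ (grIdeal l k)).toLinearMap

/-- The subalgebra generated by all homogeneous elements of degree at most `m`. -/
noncomputable def grSub (l k m : ℕ) : Subalgebra ℚ (GrRing l k) :=
  Algebra.adjoin ℚ {x | ∃ d, d ≤ m ∧ x ∈ grPiece l k d}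

/-- The Hilbert series of a graded subspace of `GrRing l k`. -/
noncomputable def grHilb (l k : ℕ) (V : Submodule ℚ (GrRing l k)) : PowerSeries ℚ :=
  PowerSeries.mk fun d => (Module.finrank ℚ (V ⊓ grPiece l k d : Submodule ℚ (GrRing l k)) : ℚ)

/-- `[n]_q = 1 + q + ... + q^(n-1)`. -/
noncomputable def qInt (n : ℕ) : ℚ[X] := ∑ i ∈ Finset.range n, X ^ i

/-- `[n]!_q = [n]_q [n-1]_q ... [1]_q`. -/
noncomputable def qFact (n : ℕ) : ℚ[X] := ∏ i ∈ Finset.range n, qInt (i + 1)

/-- The Gaussian binomial coefficient `[n]!_q / ([r]!_q [n-r]!_q)`, an exact quotient of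
polynomials for `r ≤ n`. -/
noncomputable def qBinom (n r : ℕ) : ℚ[X] := qFact n / (qFact r * qFact (n - r))

/-- The polynomial `sum_{j=0}^{l-i} q^(j(k-i+1)) binom(i+j-1, j)_q`. -/
noncomputable def qBinom' (l i k : ℕ) : ℚ[X] :=
  ∑ j ∈ Finset.range (l - i + 1), X ^ (j * (k - i + 1)) * qBinom (i + j - 1) j

end Pool.Agent.Lib.MP_1c30b8_co
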