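import Pool.Agent.Lib.MP_1c30b8_co.Inj

/-!
# Derivations and the first step
-/

open PowerSeries
open Finset.HasAntidiagonal (antidiagonal mem_antidiagonal)

namespace Pool.Agent.Lib.MP_1c30b8_co

/-- The derivation `p_j ↦ j p_{j+k}`. -/
noncomputable def Xd (k : ℕ) : Derivation ℚ P P :=
  MvPolynomial.mkDerivation ℚ fun j => ((j : P) + 1) * MvPolynomial.X (j + k)

theorem Xd_X (k j : ℕ) : Xd k (MvPolynomial.X j) = ((j : P) + 1) * p (j + 1 + k) := by
  rw [Xd, MvPolynomial.mkDerivation_X, show j + 1 + k = (j + k) + 1 by ring, p_succ]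

/-- The sequence `0, p_{k+1}, p_{k+2}, ...`. -/
noncomputable def u (k : ℕ) (i : ℕ) : P := if i = 0 then 0 else p (i + k)

theorem derivMap_pS (k : ℕ) : d⁄dX P (PowerSeries.mk (u k)) = derivMap (Xd k) pS := by
  ext n : 1
  rw [coeff_derivative, derivMap, coeff_mk, coeff_mk, pS, coeff_mk, Xd_X, u, if_neg (by omega)]
  ring

theorem Xd_b' (k M : ℕ) :
    Xd k (b M) = ∑ x ∈ antidiagonal M, u k x.1 * b x.2 := by
  have h := derivMap_E (Xd k) pS (PowerSeries.mk (u k)) (derivMap_pS k)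
    (by rw [← coeff_zero_eq_constantCoeff_apply, coeff_mk, u, if_pos rfl])
  have h2 := congrArg (coeff M) h
  rw [coeff_mul, derivMap, coeff_mk] at h2
  simp only [coeff_mk] at h2
  exact h2

theorem Xd_a' (k M : ℕ) :
    Xd k (a M) = - ∑ x ∈ antidiagonal M, u k x.1 * a x.2 := by
  have h := derivMap_E (Xd k) (-pS) (-PowerSeries.mk (u k))
    (by
      rw [map_neg, derivMap_pS]
      ext n : 1
      simp [derivMap])
    (by rw [map_neg, ← coeff_zero_eq_constantCoeff_apply, coeff_mk, u, if_pos rfl, neg_zero])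
  have h2 := congrArg (coeff M) h
  rw [neg_mul, map_neg, coeff_mul, derivMap, coeff_mk] at h2
  simp only [coeff_mk] at h2
  exact h2

theorem split_sum (c : ℕ → P) (M k : ℕ) : ∑ x ∈ antidiagonal (M + k), p x.1 * c x.2 =
    ∑ i ∈ Finset.range (k + 1), p i * c (M + k - i) + ∑ x ∈ antidiagonal M, u k x.1 * c x.2 := by
  rw [Finset.Nat.sum_antidiagonal_eq_sum_range_succ_mk,
    Finset.Nat.sum_antidiagonal_eq_sum_range_succ_mk,
    show (M + k).succ = (k + 1) + M by omega, Finset.sum_range_add, Finset.sum_range_succ' _ M]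
  congr 1
  rw [u, if_pos rfl, zero_mul, add_zero]
  refine Finset.sum_congr rfl fun i _ => ?_
  rw [u, if_neg (by omega)]
  simp only
  rw [show k + 1 + i = i + 1 + k by ring, show M + k - (i + 1 + k) = M - (i + 1) by omega]

theorem Xd_b (k M : ℕ) : Xd k (b M) =
    ((M + k : ℕ) : P) * b (M + k) - ∑ i ∈ Finset.range (k + 1), p i * b (M + k - i) := by
  rw [Xd_b', newton_b, split_sum]; ring

theorem Xd_a (k M : ℕ) : Xd k (a M) =
    ((M + k : ℕ) : P) * a (M + k) + ∑ i ∈ Finset.range (k + 1), p i * a (M + k - i) := by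
  rw [Xd_a', newton_a, split_sum]; ring

theorem Xd_mem {n L : ℕ} (k : ℕ) {y : P} (hy : y ∈ I n L) : Xd k y ∈ I n L := by
  rw [I] at hy
  induction hy using Submodule.span_induction with
  | mem x hx =>
    rcases hx with ⟨i, hi, rfl⟩ | ⟨j, hj, rfl⟩
    · rw [Set.mem_Ioi] at hi
      rw [Xd_a]
      refine add_mem (Ideal.mul_mem_left _ _ (a_mem_I _ (by omega))) (Ideal.sum_mem _ fun s hs => ?_)
      rw [Finset.mem_range] at hs
      exact Ideal.mul_mem_left _ _ (a_mem_I _ (by omega))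
    · rw [Set.mem_Ioi] at hj
      rw [Xd_b]
      refine sub_mem (Ideal.mul_mem_left _ _ (b_mem_I _ (by omega))) (Ideal.sum_mem _ fun s hs => ?_)
      rw [Finset.mem_range] at hs
      exact Ideal.mul_mem_left _ _ (b_mem_I _ (by omega))
  | zero => rw [map_zero]; exact zero_mem _
  | add x y _ _ hx hy => rw [map_add]; exact add_mem hx hy
  | smul c x hx hx' =>
    rw [smul_eq_mul, Derivation.leibniz, smul_eq_mul, smul_eq_mul]
    exact add_mem (Ideal.mul_mem_left _ _ hx') (Ideal.mul_mem_right _ _ hx)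

/-- The eigenvalue of `Xd k` on `b L`. -/
noncomputable def cc (L k : ℕ) : P := (if k = 0 then (L : P) else 0) - p k

theorem Xd_bL (n L k : ℕ) : Xd k (b L) - cc L k * b L ∈ I n L := by
  rw [Xd_b, Finset.sum_range_succ, Nat.add_sub_cancel, cc]
  rcases eq_or_ne k 0 with rfl | hk
  · have : ((L + 0 : ℕ) : P) * b (L + 0) -
        (∑ i ∈ Finset.range 0, p i * b (L + 0 - i) + p 0 * b L) -
        ((if 0 = 0 then (L : P) else 0) - p 0) * b L = 0 := by
      simp
      ring
    rw [this]; exact zero_mem _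
  · have : ((L + k : ℕ) : P) * b (L + k) -
        (∑ i ∈ Finset.range k, p i * b (L + k - i) + p k * b L) -
        ((if k = 0 then (L : P) else 0) - p k) * b L = ((L + k : ℕ) : P) * b (L + k) -
        (∑ i ∈ Finset.range k, p i * b (L + k - i)) := by
      rw [if_neg hk]; ring
    rw [this]
    refine sub_mem (Ideal.mul_mem_left _ _ (b_mem_I _ (by omega))) (Ideal.sum_mem _ fun s hs => ?_)
    rw [Finset.mem_range] at hs
    exact Ideal.mul_mem_left _ _ (b_mem_I _ (by omega))

/-- The derivation `sum_k a_{n-k} X_k`. -/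
noncomputable def Yd (n : ℕ) : Derivation ℚ P P := ∑ k ∈ Finset.range (n + 1), a (n - k) • Xd k

theorem Yd_apply (n : ℕ) (y : P) :
    Yd n y = ∑ k ∈ Finset.range (n + 1), a (n - k) * Xd k y := by
  rw [Yd]
  rw [← Derivation.coeFnAddMonoidHom_apply, map_sum, Finset.sum_apply]
  rfl

/-- `sum_{k ≤ n} a_{n-k} p_{j+k}`. -/
noncomputable def ppi (n j : ℕ) : P := ∑ k ∈ Finset.range (n + 1), a (n - k) * p (j + k)

theorem Yd_X (n j : ℕ) : Yd n (MvPolynomial.X j) = ((j : P) + 1) * ppi n (j + 1) := by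
  rw [Yd_apply, ppi, Finset.mul_sum]
  refine Finset.sum_congr rfl fun k _ => ?_
  rw [Xd_X]; ring

theorem ppi_mem (n L j : ℕ) (hj : j ≠ 0) : ppi n j ∈ I n L := by
  have h := newton_a (n + j)
  rw [Finset.Nat.sum_antidiagonal_eq_sum_range_succ_mk,
    show (n + j).succ = j + (n + 1) by omega, Finset.sum_range_add] at h
  have h2 : ppi n j = ∑ x ∈ Finset.range (n + 1), p (j + x) * a (n + j - (j + x)) := by
    rw [ppi]
    refine Finset.sum_congr rfl fun k _ => ?_
    rw [mul_comm, show n + j - (j + k) = n - k by omega]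
  have h3 : ppi n j = - (((n + j : ℕ) : P) * a (n + j)) -
      ∑ x ∈ Finset.range j, p x * a (n + j - x) := by
    rw [h2, h]; ring
  rw [h3]
  refine sub_mem (neg_mem (Ideal.mul_mem_left _ _ (a_mem_I _ (by omega))))
    (Ideal.sum_mem _ fun s hs => ?_)
  rw [Finset.mem_range] at hs
  exact Ideal.mul_mem_left _ _ (a_mem_I _ (by omega))

theorem Yd_mem {n L : ℕ} (k : ℕ) {y : P} (hy : y ∈ I n L) : Yd k y ∈ I n L := by
  rw [Yd_apply]
  exact Ideal.sum_mem _ fun s _ => Ideal.mul_mem_left _ _ (Xd_mem _ hy)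

theorem Yd_bL (N L n : ℕ) : Yd n (b L) - ((L + n : ℕ) : P) * a n * b L ∈ I N L := by
  have h := newton_a n
  rw [Finset.Nat.sum_antidiagonal_eq_sum_range_succ_mk] at h
  have h1 : ∑ k ∈ Finset.range (n + 1), a (n - k) * cc L k = ((L + n : ℕ) : P) * a n := by
    simp only [cc, mul_sub, Finset.sum_sub_distrib]
    have e1 : ∑ k ∈ Finset.range (n + 1), a (n - k) * (if k = 0 then (L : P) else 0) =
        a n * (L : P) := by
      rw [Finset.sum_eq_single 0]
      · simp
      · intro k _ hk; rw [if_neg hk, mul_zero]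
      · intro h; simp at h
    have e2 : ∑ k ∈ Finset.range (n + 1), a (n - k) * p k = - ((n : P) * a n) := by
      rw [h, neg_neg]
      exact Finset.sum_congr rfl fun k _ => mul_comm _ _
    rw [e1, e2]
    push_cast
    ring
  have h2 : Yd n (b L) - ((L + n : ℕ) : P) * a n * b L =
      ∑ k ∈ Finset.range (n + 1), a (n - k) * (Xd k (b L) - cc L k * b L) := by
    rw [← h1, Yd_apply, Finset.sum_mul, ← Finset.sum_sub_distrib]
    exact Finset.sum_congr rfl fun k _ => by ring
  rw [h2]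
  exact Ideal.sum_mem _ fun s _ => Ideal.mul_mem_left _ _ (Xd_bL _ _ _)

theorem b_pow_mul_Yd_mem (n L r : ℕ) (y : P) : b L ^ r * Yd n y ∈ I (n + r) L := by
  induction y using MvPolynomial.induction_on with
  | C c =>
    have : Yd n (MvPolynomial.C c) = 0 := (Yd n).map_algebraMap c
    rw [this, mul_zero]; exact zero_mem _
  | add x y hx hy => rw [map_add, mul_add]; exact add_mem hx hy
  | mul_X x j hx =>
    rw [Derivation.leibniz, smul_eq_mul, smul_eq_mul, Yd_X, mul_add]
    refine add_mem ?_ ?_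
    · have : b L ^ r * (x * (((j : P) + 1) * ppi n (j + 1))) =
          (x * ((j : P) + 1)) * (b L ^ r * ppi n (j + 1)) := by ring
      rw [this]
      exact Ideal.mul_mem_left _ _ (b_pow_mul_mem r (ppi_mem n L _ (by omega)))
    · have : b L ^ r * (MvPolynomial.X j * Yd n x) = MvPolynomial.X j * (b L ^ r * Yd n x) := by
        ring
      rw [this]
      exact Ideal.mul_mem_left _ _ hx

/-- The subalgebra generated by `p_1, ..., p_m`. -/
noncomputable def A (m : ℕ) : Subalgebra ℚ P := MvPolynomial.supported ℚ (Set.Iio m)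

theorem deriv_A {m : ℕ} (D : Derivation ℚ P P) {f : P} (hf : f ∈ A m) :
    D f = ∑ j : Fin m, MvPolynomial.pderiv (j : ℕ) f * D (MvPolynomial.X (j : ℕ)) := by
  rw [A, MvPolynomial.supported_eq_adjoin_X] at hf
  induction hf using Algebra.adjoin_induction with
  | mem x hx =>
    obtain ⟨i, hi, rfl⟩ := hx
    rw [Set.mem_Iio] at hi
    rw [Finset.sum_eq_single ⟨i, hi⟩]
    · simp
    · intro j _ hj
      rw [MvPolynomial.pderiv_X_of_ne, zero_mul]
      intro h
      apply hj
      ext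
      exact h.symm
    · intro h; exact absurd (Finset.mem_univ _) h
  | algebraMap r =>
    rw [D.map_algebraMap]
    symm
    refine Finset.sum_eq_zero fun j _ => ?_
    rw [(MvPolynomial.pderiv (j : ℕ)).map_algebraMap, zero_mul]
  | add x y _ _ hx hy =>
    rw [map_add, hx, hy, ← Finset.sum_add_distrib]
    refine Finset.sum_congr rfl fun j _ => ?_
    rw [map_add]; ring
  | mul x y _ _ hx hy =>
    rw [Derivation.leibniz, hx, hy, smul_eq_mul, smul_eq_mul, Finset.mul_sum, Finset.mul_sum,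
      ← Finset.sum_add_distrib]
    refine Finset.sum_congr rfl fun j _ => ?_
    rw [Derivation.leibniz, smul_eq_mul, smul_eq_mul]; ring

theorem deriv_b_pow (D : Derivation ℚ P P) (L r : ℕ) (g : P) :
    D (b L ^ (r + 1) * g) = ((r + 1 : ℕ) : P) * b L ^ r * D (b L) * g +
      b L ^ (r + 1) * D g := by
  rw [Derivation.leibniz, Derivation.leibniz_pow]
  simp only [smul_eq_mul, Nat.add_sub_cancel, nsmul_eq_mul]
  ring

theorem step1_aux1 {n r L : ℕ} {f g : P} (h : f - b L ^ (r + 1) * g ∈ I (n + (r + 1)) L) (k : ℕ) :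
    ∃ s : P, Xd k f - b L ^ (r + 1) * s ∈ I (n + (r + 1)) L := by
  refine ⟨((r + 1 : ℕ) : P) * cc L k * g + Xd k g, ?_⟩
  have h1 := Xd_mem k h
  rw [map_sub, deriv_b_pow] at h1
  have h2 := Ideal.mul_mem_left _ (((r + 1 : ℕ) : P) * b L ^ r * g) (Xd_bL (n + (r + 1)) L k)
  have h3 := add_mem h1 h2
  convert h3 using 1
  ring

theorem step1_aux2 {n r L : ℕ} {f g : P} (h : f - b L ^ (r + 1) * g ∈ I (n + (r + 1)) L) :
    Yd n f - (((r + 1 : ℕ) * (L + n : ℕ) : ℕ) : P) * (a n * b L ^ (r + 1) * g) ∈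
      I (n + (r + 1)) L := by
  have h1 := Yd_mem n h
  rw [map_sub, deriv_b_pow] at h1
  have h2 := Ideal.mul_mem_left _ (((r + 1 : ℕ) : P) * b L ^ r * g) (Yd_bL (n + (r + 1)) L n)
  have h3 := add_mem (add_mem h1 h2) (b_pow_mul_Yd_mem n L (r + 1) g)
  convert h3 using 1
  push_cast
  ring

theorem step1_aux3 {n r L : ℕ} {f g : P} (h : f - b L ^ (r + 1) * g ∈ I (n + (r + 1)) L)
    (k j : ℕ) (hj : j ≠ 0) : ppi n j * Xd k f ∈ I (n + (r + 1)) L := by
  obtain ⟨s, hs⟩ := step1_aux1 h k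
  have h1 := Ideal.mul_mem_left _ (ppi n j) hs
  have h2 := Ideal.mul_mem_left _ s (b_pow_mul_mem (r + 1) (ppi_mem n L j hj))
  have h3 := add_mem h1 h2
  convert h3 using 1
  ring

theorem natCast_mul_mem {J : Ideal P} {c : ℕ} (hc : c ≠ 0) {y : P} (h : (c : P) * y ∈ J) :
    y ∈ J := by
  have h1 := Ideal.mul_mem_left J (algebraMap ℚ P (1 / (c : ℚ))) h
  have h2 : algebraMap ℚ P (1 / (c : ℚ)) * ((c : P) * y) = y := by
    rw [← mul_assoc]
    have : (c : P) = algebraMap ℚ P (c : ℚ) := by simp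
    rw [this, ← map_mul, one_div, inv_mul_cancel₀ (by exact_mod_cast hc), map_one, one_mul]
  rwa [h2] at h1

/-- First step: an element of `A m` which is divisible by `x ^ (r+1)`, `x = b (L+1)`. -/
theorem step1 {m n r L : ℕ} {f g : P} (hf : f ∈ A m)
    (h : f - b (L + 1) ^ (r + 1) * g ∈ I (n + (r + 1)) (L + 1)) (l : Fin m → ℕ) :
    (Matrix.of fun (c j : Fin m) => p ((j : ℕ) + 1 + l c)).det * g ∈ I n L := by
  set B : Matrix (Fin m) (Fin m) P := Matrix.of fun (c j : Fin m) => p ((j : ℕ) + 1 + l c) with hB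
  set φ : Fin m → P := fun j => (((j : ℕ) : P) + 1) * MvPolynomial.pderiv (j : ℕ) f with hφ
  have hX : ∀ c, (B.mulVec φ) c = Xd (l c) f := by
    intro c
    rw [deriv_A (Xd (l c)) hf, Matrix.mulVec, dotProduct]
    refine Finset.sum_congr rfl fun j _ => ?_
    rw [Xd_X, hB, Matrix.of_apply, hφ]; ring
  have hY : Yd n f = ∑ j : Fin m, φ j * ppi n (j + 1) := by
    rw [deriv_A (Yd n) hf]
    refine Finset.sum_congr rfl fun j _ => ?_
    rw [Yd_X, hφ]; ring
  have hdet : ∀ j, B.det * φ j = ∑ c, B.adjugate j c * Xd (l c) f := by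
    intro j
    have h1 : B.adjugate.mulVec (B.mulVec φ) = B.det • φ := by
      rw [Matrix.mulVec_mulVec, Matrix.adjugate_mul, Matrix.smul_mulVec, Matrix.one_mulVec]
    have h2 := congrFun h1 j
    rw [Pi.smul_apply, smul_eq_mul] at h2
    rw [← h2, Matrix.mulVec, dotProduct]
    refine Finset.sum_congr rfl fun c _ => ?_
    rw [hX]
  have h1 : B.det * Yd n f ∈ I (n + (r + 1)) (L + 1) := by
    rw [hY, Finset.mul_sum]
    refine Ideal.sum_mem _ fun j _ => ?_
    rw [← mul_assoc, hdet, Finset.sum_mul]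
    refine Ideal.sum_mem _ fun c _ => ?_
    have : B.adjugate j c * Xd (l c) f * ppi n (j + 1) =
      B.adjugate j c * (ppi n (j + 1) * Xd (l c) f) := by ring
    rw [this]
    exact Ideal.mul_mem_left _ _ (step1_aux3 h _ _ (by omega))
  have h2 := Ideal.mul_mem_left _ B.det (step1_aux2 h)
  have h3 := sub_mem h1 h2
  have h4 : (((r + 1 : ℕ) * (L + 1 + n : ℕ) : ℕ) : P) *
      (b (L + 1) ^ (r + 1) * (a n * (B.det * g))) ∈ I (n + (r + 1)) (L + 1) := by
    convert h3 using 1
    ring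
  have h5 := natCast_mul_mem (by positivity) h4
  exact inj_a (inj_b_pow _ h5)

end Pool.Agent.Lib.MP_1c30b8_co
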