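import Pool.Agent.Lib.MP_1c30b8_co.Deriv

/-!
# The determinantal ideals `AA m n L` and `BB m n L`
-/

open Finset.HasAntidiagonal (antidiagonal mem_antidiagonal)

namespace Pool.Agent.Lib.MP_1c30b8_co

/-- The power sums with `p_0 = N`. -/
noncomputable def pt (N : ℕ) : ℕ → P
  | 0 => (N : P)
  | (j + 1) => MvPolynomial.X j

theorem pt_zero (N : ℕ) : pt N 0 = (N : P) := rfl

theorem pt_of_ne {N j : ℕ} (hj : j ≠ 0) : pt N j = p j := by
  obtain ⟨i, rfl⟩ := Nat.exists_eq_succ_of_ne_zero hj
  rfl

/-- The matrix `p_{j+1+k_c}`. -/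
noncomputable def Am (m : ℕ) (k : Fin m → ℕ) : Matrix (Fin m) (Fin m) P :=
  Matrix.of fun (c j : Fin m) => p ((j : ℕ) + 1 + k c)

/-- The matrix `p_{j+k_c}` with `p_0 = N`. -/
noncomputable def Bm (m N : ℕ) (k : Fin m → ℕ) : Matrix (Fin m) (Fin m) P :=
  Matrix.of fun (c j : Fin m) => pt N ((j : ℕ) + k c)

/-- The annihilator of the determinants of the matrices `Am m k` modulo `I n L`. -/
noncomputable def AA (m n L : ℕ) : Ideal P :=
  ⨅ k : Fin m → ℕ, Submodule.comap (LinearMap.mulLeft P (Am m k).det) (I n L)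

/-- The annihilator of the determinants of the matrices `Bm m n k` modulo `I n L`. -/
noncomputable def BB (m n L : ℕ) : Ideal P :=
  ⨅ k : Fin m → ℕ, Submodule.comap (LinearMap.mulLeft P (Bm m n k).det) (I n L)

theorem mem_AA {m n L : ℕ} {g : P} : g ∈ AA m n L ↔ ∀ k, (Am m k).det * g ∈ I n L := by
  simp [AA, Submodule.mem_iInf]

theorem mem_BB {m n L : ℕ} {g : P} : g ∈ BB m n L ↔ ∀ k, (Bm m n k).det * g ∈ I n L := by
  simp [BB, Submodule.mem_iInf]

theorem updateRow_det {m : ℕ} (M : Matrix (Fin m) (Fin m) P) (c : Fin m) (v : Fin m → P) :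
    (M.updateRow c v).det = ∑ j, v j * M.adjugate j c := by
  rw [← Matrix.cramer_transpose_apply, Matrix.cramer_eq_adjugate_mulVec, Matrix.mulVec, dotProduct]
  refine Finset.sum_congr rfl fun j _ => ?_
  rw [← Matrix.adjugate_transpose, Matrix.transpose_apply, mul_comm]

theorem Bm_updateRow {m N : ℕ} (k : Fin m → ℕ) (c : Fin m) (s : ℕ) :
    (Bm m N k).updateRow c (fun j => pt N ((j : ℕ) + s)) = Bm m N (Function.update k c s) := by
  ext i j
  rcases eq_or_ne i c with rfl | h
  · simp [Bm]
  · simp [Bm, Matrix.updateRow_ne h, Function.update_of_ne h]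

theorem Bm_eq_Am {m N : ℕ} (k : Fin m → ℕ) : Bm m N (fun c => k c + 1) = Am m k := by
  refine Matrix.ext fun i j => ?_
  have h : pt N ((j : ℕ) + (k i + 1)) = p ((j : ℕ) + 1 + k i) := by
    rw [pt_of_ne (by omega : (j : ℕ) + (k i + 1) ≠ 0)]
    exact congrArg p (by omega)
  exact h

theorem rel_a (n L j : ℕ) :
    ∑ k ∈ Finset.range (n + 1), a (n - k) * pt n (j + k) ∈ I n L := by
  rcases eq_or_ne j 0 with rfl | hj
  · have h : ∑ k ∈ Finset.range (n + 1), a (n - k) * pt n (0 + k) = 0 := by
      have h := newton_a n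
      rw [Finset.Nat.sum_antidiagonal_eq_sum_range_succ_mk, Finset.sum_range_succ'] at h
      rw [Finset.sum_range_succ', zero_add, pt_zero, Nat.sub_zero]
      simp only [p_zero, zero_mul, add_zero] at h
      have h2 : ∑ k ∈ Finset.range n, a (n - (k + 1)) * pt n (0 + (k + 1)) =
          ∑ k ∈ Finset.range n, p (k + 1) * a (n - (k + 1)) := by
        refine Finset.sum_congr rfl fun k _ => ?_
        rw [pt_of_ne (by omega), zero_add, mul_comm]
      rw [h2]
      linear_combination h
    rw [h]; exact zero_mem _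
  · have h := ppi_mem n L j hj
    rw [ppi] at h
    convert h using 1
    refine Finset.sum_congr rfl fun k _ => ?_
    rw [pt_of_ne (by omega)]

theorem rel_b_zero (N L : ℕ) :
    ∑ i ∈ Finset.range (L + 1), b i * pt N (0 + (L - i)) = ((L + N : ℕ) : P) * b L := by
  have h := newton_b L
  rw [Finset.Nat.sum_antidiagonal_eq_sum_range_succ_mk, ← Finset.sum_range_reflect,
    Finset.sum_range_succ] at h
  rw [Finset.sum_range_succ]
  have h1 : L.succ - 1 - L = 0 := by omega
  rw [h1, p_zero, zero_mul, add_zero] at h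
  rw [Nat.sub_self, add_zero, pt_zero]
  have h2 : ∑ i ∈ Finset.range L, b i * pt N (0 + (L - i)) = (L : P) * b L := by
    rw [h]
    refine Finset.sum_congr rfl fun i hi => ?_
    rw [Finset.mem_range] at hi
    rw [pt_of_ne (by omega), zero_add, show L.succ - 1 - i = L - i by omega,
      show L - (L - i) = i by omega, mul_comm]
  rw [h2]
  push_cast
  ring

theorem rel_b (N n L j : ℕ) (hj : j ≠ 0) :
    ∑ i ∈ Finset.range (L + 1), b i * pt N (j + (L - i)) ∈ I n L := by
  have h := newton_b (L + j)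
  rw [← Finset.Nat.sum_antidiagonal_swap, Finset.Nat.sum_antidiagonal_eq_sum_range_succ_mk,
    show (L + j).succ = (L + 1) + j by omega, Finset.sum_range_add] at h
  have h2 : ∑ i ∈ Finset.range (L + 1), b i * pt N (j + (L - i)) =
      ((L + j : ℕ) : P) * b (L + j) -
        ∑ x ∈ Finset.range j, p (L + j - (L + 1 + x)) * b (L + 1 + x) := by
    rw [h]
    simp only [Prod.fst_swap, Prod.snd_swap]
    rw [add_sub_cancel_right]
    refine Finset.sum_congr rfl fun i hi => ?_
    rw [Finset.mem_range] at hi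
    rw [pt_of_ne (by omega), mul_comm, show L + j - i = j + (L - i) by omega]
  rw [h2]
  exact sub_mem (Ideal.mul_mem_left _ _ (b_mem_I _ (by omega)))
    (Ideal.sum_mem _ fun s _ => Ideal.mul_mem_left _ _ (b_mem_I _ (by omega)))

/-- `AA m n (L+1) ≤ BB m n L`. -/
theorem AA_le_BB (m n L : ℕ) : AA m n (L + 1) ≤ BB m n L := by
  intro g hg
  rw [mem_AA] at hg
  rw [mem_BB]
  intro k
  have hpos : ∀ k' : Fin m → ℕ, (∀ c, k' c ≠ 0) → (Bm m n k').det * g ∈ I n (L + 1) := by
    intro k' hk'
    have h1 : k' = fun c => (k' c - 1) + 1 := by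
      funext c; have := hk' c; omega
    rw [h1, Bm_eq_Am]
    exact hg _
  by_cases hall : ∀ c, k c ≠ 0
  · exact I_mono le_rfl (Nat.le_succ L) (hpos k hall)
  · push Not at hall
    obtain ⟨c, hc⟩ := hall
    by_cases hother : ∃ c', c' ≠ c ∧ k c' = 0
    · obtain ⟨c', hne, hc'⟩ := hother
      have : (Bm m n k).det = 0 := by
        refine Matrix.det_zero_of_row_eq hne ?_
        ext j
        rw [Bm, Matrix.of_apply, Matrix.of_apply, hc, hc']
      rw [this, zero_mul]; exact zero_mem _
    · push Not at hother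
      apply inj_a
      have h1 : ∑ s ∈ Finset.range (n + 1), a (n - s) * (Bm m n (Function.update k c s)).det ∈
          I n (L + 1) := by
        have h2 : ∑ s ∈ Finset.range (n + 1), a (n - s) * (Bm m n (Function.update k c s)).det =
            ∑ j : Fin m, (∑ s ∈ Finset.range (n + 1), a (n - s) * pt n ((j : ℕ) + s)) *
              (Bm m n k).adjugate j c := by
          simp only [← Bm_updateRow, updateRow_det, Finset.mul_sum, Finset.sum_mul]
          rw [Finset.sum_comm]
          refine Finset.sum_congr rfl fun j _ => Finset.sum_congr rfl fun s _ => ?_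
          ring
        rw [h2]
        exact Ideal.sum_mem _ fun j _ => Ideal.mul_mem_right _ _ (rel_a _ _ _)
      have h3 := Ideal.mul_mem_right g _ h1
      rw [Finset.sum_range_succ', add_mul, Finset.sum_mul] at h3
      have h4 : ∑ s ∈ Finset.range n, a (n - (s + 1)) *
          (Bm m n (Function.update k c (s + 1))).det * g ∈ I n (L + 1) := by
        refine Ideal.sum_mem _ fun s _ => ?_
        rw [mul_assoc]
        refine Ideal.mul_mem_left _ _ (hpos _ fun c' => ?_)
        rcases eq_or_ne c' c with rfl | hne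
        · simp
        · rw [Function.update_of_ne hne]
          exact hother c' hne
      have h5 := (Submodule.add_mem_iff_right _ h4).1 h3
      rw [Nat.sub_zero] at h5
      have h6 : Function.update k c 0 = k := by
        rw [← hc, Function.update_eq_self]
      rw [h6, mul_assoc] at h5
      exact h5

/-- `BB (m+1) (n+1) L ≤ AA m n L`. -/
theorem BB_le_AA (m n L : ℕ) : BB (m + 1) (n + 1) L ≤ AA m n L := by
  intro g hg
  rw [mem_BB] at hg
  rw [mem_AA]
  intro k
  apply inj_b
  have hc : L + (n + 1) ≠ 0 := by omega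
  apply natCast_mul_mem hc
  set K : Fin (m + 1) → ℕ := Fin.cons 0 k with hK
  have h1 : ∑ i ∈ Finset.range (L + 1), b i *
      (Bm (m + 1) (n + 1) (Function.update K 0 (L - i))).det * g ∈ I (n + 1) L := by
    refine Ideal.sum_mem _ fun i _ => ?_
    rw [mul_assoc]
    exact Ideal.mul_mem_left _ _ (hg _)
  have h2 : ∑ i ∈ Finset.range (L + 1), b i *
      (Bm (m + 1) (n + 1) (Function.update K 0 (L - i))).det * g =
      ∑ j : Fin (m + 1), (∑ i ∈ Finset.range (L + 1), b i * pt (n + 1) ((j : ℕ) + (L - i))) *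
        ((Bm (m + 1) (n + 1) K).adjugate j 0 * g) := by
    simp only [← Bm_updateRow, updateRow_det, Finset.mul_sum, Finset.sum_mul]
    rw [Finset.sum_comm]
    refine Finset.sum_congr rfl fun j _ => Finset.sum_congr rfl fun s _ => ?_
    ring
  rw [h2, Fin.sum_univ_succ] at h1
  have h3 : ∑ j : Fin m, (∑ i ∈ Finset.range (L + 1), b i *
      pt (n + 1) (((j.succ : Fin (m + 1)) : ℕ) + (L - i))) *
        ((Bm (m + 1) (n + 1) K).adjugate j.succ 0 * g) ∈ I (n + 1) L := by
    refine Ideal.sum_mem _ fun j _ => Ideal.mul_mem_right _ _ (rel_b _ _ _ _ ?_)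
    simp
  have h4 := (Submodule.add_mem_iff_left _ h3).1 h1
  have h5 : (((0 : Fin (m + 1)) : ℕ)) = 0 := rfl
  rw [h5, rel_b_zero] at h4
  have h6 : (Bm (m + 1) (n + 1) K).adjugate 0 0 = (Am m k).det := by
    rw [Matrix.adjugate_fin_succ_eq_det_submatrix]
    simp only [Fin.val_zero, add_zero, pow_zero, one_mul]
    congr 1
    ext i j
    rw [Matrix.submatrix_apply, Bm, Am, Matrix.of_apply, Matrix.of_apply, hK]
    simp only [Fin.zero_succAbove, Fin.cons_succ, Fin.val_succ]
    rw [pt_of_ne (by omega)]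
  rw [h6] at h4
  convert h4 using 1
  ring

theorem I_le_AA (m n L : ℕ) : I n L ≤ AA m n L := by
  intro g hg
  rw [mem_AA]
  exact fun k => Ideal.mul_mem_left _ _ hg

theorem I_le_BB (m n L : ℕ) : I n L ≤ BB m n L := by
  intro g hg
  rw [mem_BB]
  exact fun k => Ideal.mul_mem_left _ _ hg

theorem AA_of_b_mul {m n L : ℕ} {z : P} (h : b L * z ∈ AA m (n + 1) L) : z ∈ AA m n L := by
  rw [mem_AA] at h ⊢
  intro k
  apply inj_b
  have := h k
  convert this using 1
  ring

theorem BB_of_a_mul {m n L : ℕ} {z : P} (h : a n * z ∈ BB m n (L + 1)) : z ∈ BB m n L := by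
  rw [mem_BB] at h ⊢
  intro k
  apply inj_a
  have := h k
  convert this using 1
  ring

theorem AA_zero (n L : ℕ) : AA 0 n L = I n L := by
  refine le_antisymm (fun g hg => ?_) (I_le_AA _ _ _)
  rw [mem_AA] at hg
  simpa using hg Fin.elim0

theorem BB_one (n L : ℕ) : BB 1 (n + 1) L = I (n + 1) L := by
  refine le_antisymm (fun g hg => ?_) (I_le_BB _ _ _)
  rw [mem_BB] at hg
  have h := hg (fun _ => 0)
  rw [Matrix.det_unique, Bm, Matrix.of_apply] at h
  exact natCast_mul_mem (Nat.succ_ne_zero n) h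

end Pool.Agent.Lib.MP_1c30b8_co
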