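import Pool.Agent.Lib.MP_1c30b8_co.Grade

/-!
# Dimensions modulo an ideal
-/

namespace Pool.Agent.Lib.MP_1c30b8_co

/-- The quotient map modulo an ideal, as a rational linear map. -/
noncomputable def mkQ' (J : Ideal P) : P →ₗ[ℚ] P ⧸ J := (Ideal.Quotient.mkₐ ℚ J).toLinearMap

theorem mkQ'_eq_zero {J : Ideal P} {x : P} : mkQ' J x = 0 ↔ x ∈ J :=
  Ideal.Quotient.eq_zero_iff_mem

/-- The dimension of a rational subspace `V` modulo an ideal `J`. -/
noncomputable def dm (V : Submodule ℚ P) (J : Ideal P) : ℕ := Module.finrank ℚ (V.map (mkQ' J))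

/-- The underlying rational subspace of an ideal. -/
noncomputable def idl (J : Ideal P) : Submodule ℚ P := J.restrictScalars ℚ

theorem mem_idl {J : Ideal P} {x : P} : x ∈ idl J ↔ x ∈ J := Iff.rfl

theorem ker_mkQ' (J : Ideal P) : LinearMap.ker (mkQ' J) = idl J := by
  ext x
  rw [LinearMap.mem_ker, mkQ'_eq_zero, mem_idl]

theorem finrank_map_add {V : Submodule ℚ P} [FiniteDimensional ℚ V] {W : Type*} [AddCommGroup W]
    [Module ℚ W] (f : P →ₗ[ℚ] W) :
    Module.finrank ℚ (V.map f) + Module.finrank ℚ (V ⊓ LinearMap.ker f : Submodule ℚ P) =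
      Module.finrank ℚ V := by
  have h := LinearMap.finrank_range_add_finrank_ker (f ∘ₗ V.subtype)
  rw [LinearMap.range_comp, Submodule.range_subtype, LinearMap.ker_comp] at h
  have h2 : Module.finrank ℚ (Submodule.comap V.subtype (LinearMap.ker f)) =
      Module.finrank ℚ (V ⊓ LinearMap.ker f : Submodule ℚ P) := by
    rw [← LinearMap.finrank_range_of_inj (f := V.subtype ∘ₗ
      (Submodule.comap V.subtype (LinearMap.ker f)).subtype)
      (fun x y h => Subtype.ext (Subtype.ext h))]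
    rw [LinearMap.range_comp, Submodule.range_subtype, Submodule.map_comap_subtype]
  rw [h2] at h
  exact h

theorem dm_add {V : Submodule ℚ P} [FiniteDimensional ℚ V] (J : Ideal P) :
    dm V J + Module.finrank ℚ (V ⊓ idl J : Submodule ℚ P) = Module.finrank ℚ V := by
  rw [dm, ← ker_mkQ']
  exact finrank_map_add _

/-- Additivity of dimension for nested ideals. -/
theorem dm_split {V : Submodule ℚ P} [FiniteDimensional ℚ V] {J J' : Ideal P} (h : J ≤ J') :
    dm V J = dm V J' + dm (V ⊓ idl J') J := by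
  have h1 := dm_add (V := V) J
  have h2 := dm_add (V := V) J'
  have h3 := dm_add (V := V ⊓ idl J') J
  have h4 : V ⊓ idl J' ⊓ idl J = V ⊓ idl J := by
    rw [inf_assoc]
    congr 1
    exact inf_eq_right.2 h
  rw [h4] at h3
  omega

theorem dm_mono {V W : Submodule ℚ P} [FiniteDimensional ℚ W] (J : Ideal P) (h : V ≤ W) :
    dm V J ≤ dm W J :=
  Submodule.finrank_mono (Submodule.map_mono h)

theorem dm_le_finrank {V : Submodule ℚ P} [FiniteDimensional ℚ V] (J : Ideal P) :
    dm V J ≤ Module.finrank ℚ V := by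
  have := dm_add (V := V) J
  omega

theorem dm_eq_zero {V : Submodule ℚ P} {J : Ideal P} (h : ∀ x ∈ V, x ∈ J) : dm V J = 0 := by
  have : V.map (mkQ' J) = ⊥ := by
    rw [eq_bot_iff]
    rintro _ ⟨x, hx, rfl⟩
    exact mkQ'_eq_zero.2 (h x hx)
  rw [dm, this, finrank_bot]

/-- Comparison along multiplication by `c`. -/
theorem dm_le_of_mul {V W : Submodule ℚ P} [FiniteDimensional ℚ W] {J J' : Ideal P} (c : P)
    (h : ∀ g ∈ V, ∃ z ∈ W, g - c * z ∈ J) (hc : ∀ y ∈ J', c * y ∈ J) : dm V J ≤ dm W J' := by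
  let φ : (P ⧸ J') →ₗ[P] P ⧸ J := Submodule.mapQ J' J (LinearMap.mulLeft P c) hc
  have h1 : V.map (mkQ' J) ≤ (W.map (mkQ' J')).map (φ.restrictScalars ℚ) := by
    rintro _ ⟨g, hg, rfl⟩
    obtain ⟨z, hz, hgz⟩ := h g hg
    refine ⟨mkQ' J' z, ⟨z, hz, rfl⟩, ?_⟩
    have h2 : mkQ' J (g - c * z) = 0 := mkQ'_eq_zero.2 hgz
    rw [map_sub, sub_eq_zero] at h2
    rw [h2]
    rfl
  exact (Submodule.finrank_mono h1).trans (Submodule.finrank_map_le _ _)

/-- If `V` lies in the span of `v` modulo `J` then its dimension is at most one. -/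
theorem dm_le_one {V : Submodule ℚ P} {J : Ideal P} (v : P)
    (h : ∀ x ∈ V, ∃ r : ℚ, x - r • v ∈ J) : dm V J ≤ 1 := by
  have h1 : V.map (mkQ' J) ≤ Submodule.span ℚ {mkQ' J v} := by
    rintro _ ⟨g, hg, rfl⟩
    obtain ⟨r, hr⟩ := h g hg
    have h2 : mkQ' J (g - r • v) = 0 := mkQ'_eq_zero.2 hr
    rw [map_sub, sub_eq_zero, map_smul] at h2
    rw [h2]
    exact Submodule.smul_mem _ _ (Submodule.mem_span_singleton_self _)
  exact (Submodule.finrank_mono h1).trans ((finrank_span_le_card _).trans (by simp))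

end Pool.Agent.Lib.MP_1c30b8_co
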