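import Pool.Agent.Lib.MP_1c30b8_co.Det

/-!
# The grading of `P`
-/

open Finset.HasAntidiagonal (antidiagonal mem_antidiagonal)

namespace Pool.Agent.Lib.MP_1c30b8_co

/-- The weight of the variable `X j = p_{j+1}`. -/
def wt (j : ℕ) : ℕ := j + 1

/-- The homogeneous elements of degree `d`. -/
noncomputable def Pd (d : ℕ) : Submodule ℚ P := MvPolynomial.weightedHomogeneousSubmodule ℚ wt d

/-- The homogeneous component of degree `d`. -/
noncomputable def cmp (d : ℕ) : P →ₗ[ℚ] P := MvPolynomial.weightedHomogeneousComponent wt d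

theorem mem_Pd {d : ℕ} {x : P} : x ∈ Pd d ↔ MvPolynomial.IsWeightedHomogeneous wt x d := Iff.rfl

theorem cmp_mem (d : ℕ) (x : P) : cmp d x ∈ Pd d :=
  MvPolynomial.weightedHomogeneousComponent_mem wt x d

theorem cmp_of_mem {d : ℕ} {x : P} (h : x ∈ Pd d) : cmp d x = x :=
  MvPolynomial.IsWeightedHomogeneous.weightedHomogeneousComponent_same h

theorem Pd_mul {d e : ℕ} {x y : P} (hx : x ∈ Pd d) (hy : y ∈ Pd e) : x * y ∈ Pd (d + e) :=
  MvPolynomial.IsWeightedHomogeneous.mul hx hy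

theorem one_mem_Pd : (1 : P) ∈ Pd 0 := MvPolynomial.isWeightedHomogeneous_one ℚ wt

theorem X_mem_Pd (j : ℕ) : (MvPolynomial.X j : P) ∈ Pd (j + 1) :=
  MvPolynomial.isWeightedHomogeneous_X ℚ wt j

theorem p_mem_Pd (j : ℕ) : p j ∈ Pd j := by
  rcases j with _ | j
  · rw [p_zero]; exact zero_mem _
  · exact X_mem_Pd j

section Decomp

attribute [local instance] MvPolynomial.weightedGradedAlgebra

theorem cmp_eq (d : ℕ) (x : P) : cmp d x =
    (DirectSum.decompose (MvPolynomial.weightedHomogeneousSubmodule ℚ wt) x d : P) :=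
  (MvPolynomial.weightedDecomposition.decompose'_apply ℚ wt x d).symm

theorem cmp_mul_of_le {d e : ℕ} {c z : P} (hc : c ∈ Pd e) (h : e ≤ d) :
    cmp d (c * z) = c * cmp (d - e) z := by
  rw [cmp_eq, cmp_eq]
  exact DirectSum.coe_decompose_mul_of_left_mem_of_le _ hc h

theorem cmp_mul_of_not_le {d e : ℕ} {c z : P} (hc : c ∈ Pd e) (h : ¬ e ≤ d) :
    cmp d (c * z) = 0 := by
  rw [cmp_eq]
  exact DirectSum.coe_decompose_mul_of_left_mem_of_not_le _ hc h

theorem isHomogeneous_span {s : Set P} (hs : ∀ x ∈ s, ∃ d, x ∈ Pd d) :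
    (Ideal.span s).IsHomogeneous (MvPolynomial.weightedHomogeneousSubmodule ℚ wt) :=
  Ideal.homogeneous_span _ _ fun x hx => hs x hx

theorem isHomogeneous_I (n L : ℕ) :
    (I n L).IsHomogeneous (MvPolynomial.weightedHomogeneousSubmodule ℚ wt) → ∀ (d : ℕ) {x : P},
      x ∈ I n L → cmp d x ∈ I n L := fun h d _ hx =>
  MvPolynomial.weightedHomogeneousComponent_mem_of_mem ℚ wt h hx d

end Decomp

theorem inv_smul_natCast {c : ℕ} (hc : c ≠ 0) (x : P) : (1 / (c : ℚ)) • ((c : P) * x) = x := by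
  rw [Algebra.smul_def, ← mul_assoc]
  have : (c : P) = algebraMap ℚ P (c : ℚ) := by simp
  rw [this, ← map_mul, one_div, inv_mul_cancel₀ (by exact_mod_cast hc), map_one, one_mul]

theorem b_mem_Pd (n : ℕ) : b n ∈ Pd n := by
  induction n using Nat.strong_induction_on with
  | _ n ih =>
    rcases eq_or_ne n 0 with rfl | hn
    · rw [b_zero]; exact one_mem_Pd
    · rw [← inv_smul_natCast hn (b n), newton_b]
      refine Submodule.smul_mem _ _ (Submodule.sum_mem _ fun x hx => ?_)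
      rw [mem_antidiagonal] at hx
      rcases eq_or_ne x.1 0 with h0 | h0
      · rw [h0, p_zero, zero_mul]; exact zero_mem _
      · have := Pd_mul (p_mem_Pd x.1) (ih x.2 (by omega))
        rwa [hx] at this

theorem a_mem_Pd (n : ℕ) : a n ∈ Pd n := by
  induction n using Nat.strong_induction_on with
  | _ n ih =>
    rcases eq_or_ne n 0 with rfl | hn
    · rw [a_zero]; exact one_mem_Pd
    · rw [← inv_smul_natCast hn (a n), newton_a]
      refine Submodule.smul_mem _ _ (neg_mem (Submodule.sum_mem _ fun x hx => ?_))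
      rw [mem_antidiagonal] at hx
      rcases eq_or_ne x.1 0 with h0 | h0
      · rw [h0, p_zero, zero_mul]; exact zero_mem _
      · have := Pd_mul (p_mem_Pd x.1) (ih x.2 (by omega))
        rwa [hx] at this

attribute [local instance] MvPolynomial.weightedGradedAlgebra in
theorem cmp_mem_I {n L : ℕ} (d : ℕ) {x : P} (hx : x ∈ I n L) : cmp d x ∈ I n L := by
  have h : (I n L).IsHomogeneous (MvPolynomial.weightedHomogeneousSubmodule ℚ wt) := by
    apply isHomogeneous_span
    rintro x (⟨i, _, rfl⟩ | ⟨j, _, rfl⟩)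
    · exact ⟨i, a_mem_Pd i⟩
    · exact ⟨j, b_mem_Pd j⟩
  exact isHomogeneous_I n L h d hx

/-- Homogeneous division. -/
theorem exists_sub_mem {n L d e : ℕ} {c g : P} (hc : c ∈ Pd e) (hg : g ∈ Pd d)
    (h : g ∈ I n L ⊔ Ideal.span {c}) (hde : e ≤ d) : ∃ z ∈ Pd (d - e), g - c * z ∈ I n L := by
  obtain ⟨y, hy, x, hx, rfl⟩ := Submodule.mem_sup.1 h
  obtain ⟨z, rfl⟩ := Ideal.mem_span_singleton.1 hx
  refine ⟨cmp (d - e) z, cmp_mem _ _, ?_⟩
  have h1 := cmp_of_mem hg
  rw [map_add, cmp_mul_of_le hc hde] at h1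
  have h2 : y + c * z - c * cmp (d - e) z = cmp d y := by
    rw [← h1]; ring
  rw [h2]
  exact cmp_mem_I _ hy

theorem mem_of_not_le {n L d e : ℕ} {c g : P} (hc : c ∈ Pd e) (hg : g ∈ Pd d)
    (h : g ∈ I n L ⊔ Ideal.span {c}) (hde : ¬ e ≤ d) : g ∈ I n L := by
  obtain ⟨y, hy, x, hx, rfl⟩ := Submodule.mem_sup.1 h
  obtain ⟨z, rfl⟩ := Ideal.mem_span_singleton.1 hx
  have h1 := cmp_of_mem hg
  rw [map_add, cmp_mul_of_not_le hc hde, add_zero] at h1
  rw [← h1]
  exact cmp_mem_I _ hy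

/-! ### Finite dimension -/

theorem finite_weight (d : ℕ) : {s : ℕ →₀ ℕ | Finsupp.weight wt s = d}.Finite := by
  refine Set.Finite.subset (Set.finite_Iic (∑ j ∈ Finset.range d, Finsupp.single j d)) ?_
  intro s hs
  rw [Set.mem_ofPred_eq] at hs
  rw [Set.mem_Iic]
  intro j
  rw [Finsupp.finsetSum_apply]
  have h1 : s j * (j + 1) ≤ d := by
    rw [← hs, Finsupp.weight_apply]
    by_cases hj : j ∈ s.support
    · exact Finset.single_le_sum (f := fun i => s i • wt i) (fun i _ => Nat.zero_le _) hj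
    · rw [Finsupp.notMem_support_iff] at hj
      rw [hj, zero_mul]; exact Nat.zero_le _
  by_cases hj : j < d
  · have : (Finsupp.single j d : ℕ →₀ ℕ) j ≤ ∑ i ∈ Finset.range d, (Finsupp.single i d : ℕ →₀ ℕ) j :=
      Finset.single_le_sum (f := fun i => (Finsupp.single i d : ℕ →₀ ℕ) j)
        (fun i _ => Nat.zero_le _) (Finset.mem_range.2 hj)
    rw [Finsupp.single_eq_same] at this
    nlinarith
  · have : s j = 0 := by
      by_contra h
      have : 1 * (j + 1) ≤ s j * (j + 1) := Nat.mul_le_mul_right _ (Nat.pos_of_ne_zero h)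
      omega
    rw [this]; exact Nat.zero_le _

instance finiteDimensional_Pd (d : ℕ) : FiniteDimensional ℚ (Pd d) := by
  rw [Pd, MvPolynomial.weightedHomogeneousSubmodule_eq_finsupp_supported]
  have := (finite_weight d).to_subtype
  exact Module.Finite.of_basis
    (MvPolynomial.basisRestrictSupport ℚ {s : ℕ →₀ ℕ | Finsupp.weight wt s = d})

end Pool.Agent.Lib.MP_1c30b8_co
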