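import Pool.Agent.Lib.MP_1c30b8_co.Basic

/-!
# Cancelling `b L` and `a n`
-/

open PowerSeries
open Finset.HasAntidiagonal (antidiagonal mem_antidiagonal)

namespace Pool.Agent.Lib.MP_1c30b8_co

section Shift

variable {S : Type*} [CommRing S]

theorem geom (w : S) : (PowerSeries.mk fun j => w ^ (j + 1)) * (1 - PowerSeries.C w * X) =
    PowerSeries.C w := by
  ext n : 1
  have : (PowerSeries.mk fun j => w ^ (j + 1)) * (1 - PowerSeries.C w * X) =
      (PowerSeries.mk fun j => w ^ (j + 1)) -
      PowerSeries.C w * ((PowerSeries.mk fun j => w ^ (j + 1)) * X) := by ring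
  rw [this, map_sub, coeff_mk, coeff_C_mul]
  rcases n with _ | n
  · simp
  · rw [coeff_succ_mul_X, coeff_mk, coeff_C]
    simp only [Nat.add_eq_zero_iff, one_ne_zero, and_false, if_false]
    ring

theorem deriv_C_mul_X (w : S) : d⁄dX S (1 - PowerSeries.C w * X) = - PowerSeries.C w := by
  ext n : 1
  rw [coeff_derivative, map_sub, coeff_C_mul, coeff_X, coeff_one, map_neg, coeff_C]
  rcases n with _ | n
  · simp
  · simp

variable [Algebra ℚ S] (w : S) (f g : P →+* S)
  (h : ∀ j, f (MvPolynomial.X j) = g (MvPolynomial.X j) + w ^ (j + 1))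

include h

omit [Algebra ℚ S] in
theorem map_shift_pS : PowerSeries.map f pS =
    PowerSeries.map g pS + PowerSeries.mk fun j => w ^ (j + 1) := by
  ext n : 1
  simp [pS, h]

theorem map_shift_aS : PowerSeries.map f aS =
    PowerSeries.map g aS * (1 - PowerSeries.C w * X) := by
  rw [aS, E_map]
  symm
  apply E_unique
  · rw [Derivation.leibniz, ← map_derivative, E_deriv, map_neg (PowerSeries.map f),
      map_shift_pS w f g h, smul_eq_mul, smul_eq_mul, deriv_C_mul_X, map_mul, map_neg]
    have h := geom w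
    linear_combination ((PowerSeries.map g (E (-pS)))) * h
  · rw [map_mul, E_map, E_const]
    simp

theorem map_shift_bS : PowerSeries.map f bS * (1 - PowerSeries.C w * X) =
    PowerSeries.map g bS := by
  have h1 := congrArg (PowerSeries.map f) aS_mul_bS
  have h2 := congrArg (PowerSeries.map g) aS_mul_bS
  rw [map_mul, map_one, map_shift_aS w f g h] at h1
  rw [map_mul, map_one] at h2
  linear_combination (PowerSeries.map g bS) * h1 - (PowerSeries.map f bS) *
    (1 - PowerSeries.C w * X) * h2

theorem shift_a (M : ℕ) : f (a (M + 1)) = g (a (M + 1)) - w * g (a M) := by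
  have h1 := congrArg (coeff (M + 1)) (map_shift_aS w f g h)
  have h2 : PowerSeries.map g aS * (1 - PowerSeries.C w * X) =
    PowerSeries.map g aS - PowerSeries.C w * (PowerSeries.map g aS * X) := by ring
  rw [h2, map_sub, coeff_C_mul, coeff_succ_mul_X, coeff_map, coeff_map, coeff_map] at h1
  exact h1

theorem shift_b (M : ℕ) : f (b (M + 1)) = w * f (b M) + g (b (M + 1)) := by
  have h1 := congrArg (coeff (M + 1)) (map_shift_bS w f g h)
  have h2 : PowerSeries.map f bS * (1 - PowerSeries.C w * X) =
    PowerSeries.map f bS - PowerSeries.C w * (PowerSeries.map f bS * X) := by ring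
  rw [h2, map_sub, coeff_C_mul, coeff_succ_mul_X, coeff_map, coeff_map, coeff_map] at h1
  rw [b, b, ← h1]
  ring

end Shift

theorem dvd_of_mem_I {S : Type*} [CommRing S] (f : P →+* S) (c : S) {n L : ℕ}
    (ha : ∀ i, n < i → c ∣ f (a i)) (hb : ∀ j, L < j → c ∣ f (b j)) {y : P} (hy : y ∈ I n L) :
    c ∣ f y := by
  have hle : I n L ≤ Ideal.comap f (Ideal.span {c}) := by
    rw [I_le_iff]
    refine ⟨fun i hi => ?_, fun j hj => ?_⟩
    · rw [Ideal.mem_comap, Ideal.mem_span_singleton]; exact ha i hi
    · rw [Ideal.mem_comap, Ideal.mem_span_singleton]; exact hb j hj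
  exact Ideal.mem_span_singleton.1 (hle hy)

theorem cancel_aux {S : Type*} [CommRing S] {c w u z : S} (hc : IsRegular c)
    (h : c * u = w * c * z) : u = w * z := by
  apply hc.left
  show c * u = c * (w * z)
  rw [h]; ring

/-- Cancelling `b L`. -/
theorem inj_b {n L : ℕ} {y : P} (hy : b L * y ∈ I (n + 1) L) : y ∈ I n L := by
  rw [← Ideal.Quotient.eq_zero_iff_mem]
  rcases subsingleton_or_nontrivial (P ⧸ I n L) with hs | hs
  · exact Subsingleton.elim _ _
  let w : Polynomial (P ⧸ I n L) := Polynomial.X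
  let f : P →ₐ[ℚ] Polynomial (P ⧸ I n L) := MvPolynomial.aeval fun j =>
    Polynomial.C (Ideal.Quotient.mk (I n L) (MvPolynomial.X j)) + Polynomial.X ^ (j + 1)
  let g : P →+* Polynomial (P ⧸ I n L) := Polynomial.C.comp (Ideal.Quotient.mk (I n L))
  have hfg : ∀ j, (f : P →+* Polynomial (P ⧸ I n L)) (MvPolynomial.X j) =
      g (MvPolynomial.X j) + w ^ (j + 1) := by
    intro j
    simp [f, g, w]
  have hga : ∀ i, n < i → g (a i) = 0 := by
    intro i hi
    simp only [g, RingHom.comp_apply]
    rw [Ideal.Quotient.eq_zero_iff_mem.2 (a_mem_I L hi), map_zero]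
  have hgb : ∀ i, L < i → g (b i) = 0 := by
    intro i hi
    simp only [g, RingHom.comp_apply]
    rw [Ideal.Quotient.eq_zero_iff_mem.2 (b_mem_I n hi), map_zero]
  have hfa : ∀ i, n + 1 < i → f (a i) = 0 := by
    intro i hi
    obtain ⟨M, rfl⟩ : ∃ M, i = M + 1 := ⟨i - 1, by omega⟩
    have := shift_a w (f : P →+* Polynomial (P ⧸ I n L)) g hfg M
    rw [hga _ (by omega), hga _ (by omega)] at this
    simpa using this
  have hfb : ∀ k, f (b (L + k)) = w ^ k * f (b L) := by
    intro k
    induction k with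
    | zero => simp
    | succ k ih =>
      have := shift_b w (f : P →+* Polynomial (P ⧸ I n L)) g hfg (L + k)
      rw [hgb _ (by omega), add_zero] at this
      have h2 : f (b (L + k + 1)) = w * f (b (L + k)) := this
      rw [← add_assoc, h2, ih]; ring
  have hmonic : ∀ M, (f (b M)).Monic ∧ (f (b M)).degree = M := by
    intro M
    induction M with
    | zero => rw [b_zero, map_one]; exact ⟨Polynomial.monic_one, Polynomial.degree_one⟩
    | succ M ih =>
      have h1 : f (b (M + 1)) = w * f (b M) + g (b (M + 1)) :=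
        shift_b w (f : P →+* Polynomial (P ⧸ I n L)) g hfg M
      have hm : (w * f (b M)).Monic := Polynomial.monic_X.mul ih.1
      have hd : (w * f (b M)).degree = (M + 1 : ℕ) := by
        show (Polynomial.X * f (b M)).degree = _
        rw [Polynomial.X_mul, Polynomial.degree_mul_X, ih.2]
        rfl
      have hlt : (g (b (M + 1))).degree < (w * f (b M)).degree := by
        rw [hd]
        refine lt_of_le_of_lt Polynomial.degree_C_le ?_
        exact_mod_cast Nat.succ_pos M
      rw [h1]
      refine ⟨hm.add_of_left hlt, ?_⟩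
      rw [Polynomial.degree_add_eq_left_of_degree_lt hlt, hd]
  obtain ⟨z, hz⟩ : w * f (b L) ∣ (f : P →+* Polynomial (P ⧸ I n L)) (b L * y) := by
    refine dvd_of_mem_I (S := Polynomial (P ⧸ I n L)) _ _ (fun i hi => ?_) (fun j hj => ?_) hy
    · have h1 : (f : P →+* Polynomial (P ⧸ I n L)) (a i) = 0 := hfa i hi
      rw [h1]; exact dvd_zero _
    · obtain ⟨k, rfl⟩ : ∃ k, j = L + (k + 1) := ⟨j - L - 1, by omega⟩
      refine ⟨w ^ k, ?_⟩
      have h1 : (f : P →+* Polynomial (P ⧸ I n L)) (b (L + (k + 1))) = w ^ (k + 1) * f (b L) :=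
        hfb (k + 1)
      rw [h1]; ring
  have h3 : f y = w * z := by
    refine cancel_aux (S := Polynomial (P ⧸ I n L)) (hmonic L).1.isRegular ?_
    exact (map_mul f _ _).symm.trans hz
  have h4 : (Polynomial.evalRingHom (0 : P ⧸ I n L)).comp (f : P →+* Polynomial (P ⧸ I n L)) =
      Ideal.Quotient.mk (I n L) := by
    apply MvPolynomial.ringHom_ext'
    · exact RingHom.ext_rat _ _
    · intro j
      simp only [RingHom.comp_apply]
      rw [hfg]
      simp [g, w]
  have h5 := RingHom.congr_fun h4 y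
  rw [← h5, RingHom.comp_apply]
  have h6 : (f : P →+* Polynomial (P ⧸ I n L)) y = w * z := h3
  rw [h6]
  simp [w]

/-- Cancelling `a n`. -/
theorem inj_a {n L : ℕ} {y : P} (hy : a n * y ∈ I n (L + 1)) : y ∈ I n L := by
  rw [← tau_mem_iff]
  apply inj_b
  rw [← tau_a, ← map_mul, tau_mem_iff]
  exact hy

/-- Cancelling powers of `b L`. -/
theorem inj_b_pow {n L : ℕ} (r : ℕ) {y : P} (hy : b L ^ r * y ∈ I (n + r) L) : y ∈ I n L := by
  induction r with
  | zero => simpa using hy
  | succ r ih =>
    apply ih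
    apply inj_b
    rw [← mul_assoc, ← pow_succ']
    exact hy

theorem b_pow_mul_mem {n L : ℕ} (r : ℕ) {y : P} (hy : y ∈ I n L) :
    b L ^ r * y ∈ I (n + r) L := by
  induction r with
  | zero => simpa using hy
  | succ r ih =>
    rw [pow_succ', mul_assoc]
    exact b_mul_mem ih

end Pool.Agent.Lib.MP_1c30b8_co
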