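import Pool.Agent.Lib.MP_1c30b8_co.QId

/-!
# The lower bound
-/

open Finset.HasAntidiagonal (antidiagonal mem_antidiagonal)

namespace Pool.Agent.Lib.MP_1c30b8_co

theorem A_mono {m n : ℕ} (h : m ≤ n) : A m ≤ A n :=
  MvPolynomial.supported_mono (Set.Iio_subset_Iio h)

theorem X_mem_A {m j : ℕ} (h : j < m) : (MvPolynomial.X j : P) ∈ A m := by
  rw [A, MvPolynomial.supported_eq_adjoin_X]
  exact Algebra.subset_adjoin ⟨j, h, rfl⟩

/-- Algebra homomorphisms agreeing on the variables of `A m` agree on `A m`. -/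
theorem eq_on_A {m : ℕ} {S : Type*} [CommRing S] [Algebra ℚ S] (f g : P →ₐ[ℚ] S)
    (h : ∀ j, j < m → f (MvPolynomial.X j) = g (MvPolynomial.X j)) {x : P} (hx : x ∈ A m) :
    f x = g x := by
  rw [A, MvPolynomial.supported_eq_adjoin_X] at hx
  induction hx using Algebra.adjoin_induction with
  | mem x hx =>
    obtain ⟨i, hi, rfl⟩ := hx
    exact h i hi
  | algebraMap r => rw [f.commutes, g.commutes]
  | add x y _ _ hx hy => rw [map_add, map_add, hx, hy]
  | mul x y _ _ hx hy => rw [map_mul, map_mul, hx, hy]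

/-- The homomorphism `p_{m+1} ↦ 0`. -/
noncomputable def kill (m : ℕ) : P →ₐ[ℚ] P :=
  MvPolynomial.aeval fun j => if j = m then 0 else MvPolynomial.X j

theorem kill_of_mem {m : ℕ} {x : P} (hx : x ∈ A m) : kill m x = x := by
  have := eq_on_A (kill m) (AlgHom.id ℚ P) (fun j hj => by
    rw [kill, MvPolynomial.aeval_X, if_neg (by omega)]; rfl) hx
  exact this

theorem kill_X_mul (m : ℕ) (x : P) : kill m (MvPolynomial.X m * x) = 0 := by
  rw [map_mul, kill, MvPolynomial.aeval_X, if_pos rfl, zero_mul]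

theorem Ad_mono {m n : ℕ} (h : m ≤ n) (d : ℕ) : Ad m d ≤ Ad n d :=
  inf_le_inf_right _ (A_mono h)

theorem finrank_Ad_succ (m d : ℕ) (hd : m + 1 ≤ d) :
    Module.finrank ℚ (Ad m d) + Module.finrank ℚ (Ad (m + 1) (d - (m + 1))) ≤
      Module.finrank ℚ (Ad (m + 1) d) := by
  set f : P →ₗ[ℚ] P := LinearMap.mulLeft ℚ (MvPolynomial.X m) with hf
  have hinj : Function.Injective f := fun x y h =>
    mul_left_cancel₀ (MvPolynomial.X_ne_zero m) h
  have h1 : Module.finrank ℚ ((Ad (m + 1) (d - (m + 1))).map f) =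
      Module.finrank ℚ (Ad (m + 1) (d - (m + 1))) :=
    (LinearEquiv.finrank_eq (Submodule.equivMapOfInjective f hinj _)).symm
  have h2 : Ad m d ⊓ (Ad (m + 1) (d - (m + 1))).map f = ⊥ := by
    rw [eq_bot_iff]
    rintro x ⟨hx, y, hy, rfl⟩
    have h3 := kill_of_mem (m := m) (Submodule.mem_inf.1 hx).1
    rw [hf, LinearMap.mulLeft_apply, kill_X_mul] at h3
    exact h3.symm
  have h3 : Ad m d ⊔ (Ad (m + 1) (d - (m + 1))).map f ≤ Ad (m + 1) d := by
    refine sup_le (Ad_mono (Nat.le_succ m) d) ?_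
    rintro _ ⟨y, hy, rfl⟩
    refine ⟨(A (m + 1)).mul_mem (X_mem_A (Nat.lt_succ_self m)) (Submodule.mem_inf.1 hy).1, ?_⟩
    have := Pd_mul (X_mem_Pd m) (Submodule.mem_inf.1 hy).2
    rwa [Nat.add_sub_cancel' hd] at this
  have h4 := Submodule.finrank_sup_add_finrank_inf_eq (Ad m d)
    ((Ad (m + 1) (d - (m + 1))).map f)
  rw [h2, finrank_bot, add_zero, h1] at h4
  rw [← h4]
  exact Submodule.finrank_mono h3

theorem finrank_Ad_ge (m N l d : ℕ) (hm : m ≤ N) (hd : d ≤ l) :
    (SS m N l).coeff d ≤ Module.finrank ℚ (Ad m d) := by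
  induction m generalizing d with
  | zero =>
    have h0 : SS 0 N l = 1 := by simp [SS, kc]
    rw [h0, Polynomial.coeff_one]
    split_ifs with h
    · subst h
      have h1 : (1 : P) ∈ Ad 0 0 := ⟨(A 0).one_mem, one_mem_Pd⟩
      have h2 : 0 < Module.finrank ℚ (Ad 0 0) := by
        rw [Module.finrank_pos_iff]
        exact ⟨⟨⟨1, h1⟩, 0, fun h => one_ne_zero (congrArg Subtype.val h)⟩⟩
      exact_mod_cast h2
    · positivity
  | succ m ih =>
    induction d using Nat.strong_induction_on with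
    | _ d ihd =>
      rw [SS_coeff m N l d hm hd]
      split_ifs with h
      · refine le_trans (add_le_add (ih d (by omega) hd) (ihd (d - (m + 1)) (by omega) (by omega))) ?_
        exact_mod_cast finrank_Ad_succ m d h
      · rw [add_zero]
        refine (ih d (by omega) hd).trans ?_
        exact_mod_cast Submodule.finrank_mono (Ad_mono (Nat.le_succ m) d)

/-! ### The ideal does not meet `A m` in low degrees -/

section Theta

open PowerSeries

variable (N : ℕ)

/-- The truncation of `aS`. -/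
noncomputable def al : P⟦X⟧ := PowerSeries.mk fun i => if i ≤ N then a i else 0

theorem al_const : constantCoeff (al N) = 1 := by
  rw [← coeff_zero_eq_constantCoeff_apply, al, coeff_mk, if_pos (Nat.zero_le N), a_zero]

/-- The inverse of the truncation. -/
noncomputable def alInv : P⟦X⟧ := invOfUnit (al N) 1

theorem al_mul_alInv : al N * alInv N = 1 :=
  mul_invOfUnit _ _ (by rw [al_const]; rfl)

/-- The image of the series of power sums. -/
noncomputable def pth : P⟦X⟧ := - (d⁄dX P (al N)) * alInv N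

/-- The homomorphism which kills `a i` for `i > N`. -/
noncomputable def theta : P →ₐ[ℚ] P := MvPolynomial.aeval fun j => coeff j (pth N)

theorem map_theta_pS : PowerSeries.map (theta N : P →+* P) pS = pth N := by
  ext n : 1
  simp [pS, theta]

theorem map_theta_aS : PowerSeries.map (theta N : P →+* P) aS = al N := by
  rw [aS, E_map, map_neg, map_theta_pS]
  symm
  apply E_unique
  · rw [pth]
    linear_combination (- d⁄dX P (al N)) * al_mul_alInv N
  · exact al_const N

theorem theta_a {i : ℕ} (h : N < i) : theta N (a i) = 0 := by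
  have := congrArg (coeff i) (map_theta_aS N)
  rw [coeff_map, al, coeff_mk, if_neg (by omega)] at this
  exact this

theorem theta_X {j : ℕ} (h : j < N) : theta N (MvPolynomial.X j) = MvPolynomial.X j := by
  have h0 : X ^ (N + 1) ∣ aS - al N := by
    rw [X_pow_dvd_iff]
    intro m hm
    rw [map_sub, al, coeff_mk, if_pos (by omega)]
    exact sub_self _
  have h1 : X ^ N ∣ aS - al N := (pow_dvd_pow _ (Nat.le_succ N)).trans h0
  have h2 : X ^ N ∣ d⁄dX P (aS - al N) := by
    rw [X_pow_dvd_iff] at h0 ⊢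
    intro m hm
    rw [coeff_derivative, h0 (m + 1) (by omega), zero_mul]
  have h3 : d⁄dX P aS = - pS * aS := by rw [aS, E_deriv]
  have h4 : pth N - pS = alInv N * bS * (d⁄dX P (aS - al N) * al N -
      d⁄dX P (al N) * (aS - al N)) := by
    rw [map_sub, h3, pth]
    linear_combination (pS * alInv N * al N + d⁄dX P (al N) * alInv N) * aS_mul_bS +
      pS * al_mul_alInv N
  have h5 : X ^ N ∣ pth N - pS := by
    rw [h4]
    exact Dvd.dvd.mul_left (dvd_sub (Dvd.dvd.mul_right h2 _) (Dvd.dvd.mul_left h1 _)) _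
  have h6 := (X_pow_dvd_iff.1 h5) j h
  rw [map_sub, sub_eq_zero, pS, coeff_mk] at h6
  rw [theta, MvPolynomial.aeval_X, h6]

theorem theta_of_mem {m : ℕ} (h : m ≤ N) {x : P} (hx : x ∈ A m) : theta N x = x :=
  eq_on_A (theta N) (AlgHom.id ℚ P) (fun j hj => by
    rw [theta_X N (by omega)]; rfl) hx

end Theta

/-- The ideal generated by `a i`, `i > N`. -/
noncomputable def Ja (N : ℕ) : Ideal P := Ideal.span (a '' Set.Ioi N)

theorem cmp_mem_Ja {N : ℕ} (d : ℕ) {x : P} (hx : x ∈ Ja N) : cmp d x ∈ Ja N :=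
  MvPolynomial.weightedHomogeneousComponent_mem_of_mem ℚ wt
    (isHomogeneous_span fun y hy => by
      obtain ⟨i, _, rfl⟩ := hy
      exact ⟨i, a_mem_Pd i⟩) hx d

theorem cmp_low {N l : ℕ} {x : P} (hx : x ∈ I N l) :
    ∀ c : P, ∀ d, d ≤ l → cmp d (c * x) ∈ Ja N := by
  rw [I] at hx
  induction hx using Submodule.span_induction with
  | mem x hx =>
    intro c d hd
    rcases hx with ⟨i, hi, rfl⟩ | ⟨j, hj, rfl⟩
    · exact cmp_mem_Ja _ (Ideal.mul_mem_left _ _ (Ideal.subset_span ⟨i, hi, rfl⟩))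
    · rw [mul_comm, cmp_mul_of_not_le (b_mem_Pd j)]
      · exact zero_mem _
      · rw [Set.mem_Ioi] at hj; omega
  | zero => intro c d _; rw [mul_zero, map_zero]; exact zero_mem _
  | add x y _ _ hx hy => intro c d hd; rw [mul_add, map_add]; exact add_mem (hx c d hd) (hy c d hd)
  | smul r x _ hx => intro c d hd; rw [smul_eq_mul, ← mul_assoc]; exact hx _ d hd

theorem theta_Ja {N : ℕ} {x : P} (hx : x ∈ Ja N) : theta N x = 0 := by
  have h : Ja N ≤ RingHom.ker (theta N : P →+* P) := by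
    rw [Ja, Ideal.span_le]
    rintro _ ⟨i, hi, rfl⟩
    exact theta_a N hi
  exact h hx

theorem Ad_inf {m N l d : ℕ} (hm : m ≤ N) (hd : d ≤ l) : Ad m d ⊓ idl (I N l) = ⊥ := by
  rw [eq_bot_iff]
  rintro x ⟨⟨hx1, hx2⟩, hx3⟩
  have h1 := cmp_low hx3 1 d hd
  rw [one_mul, cmp_of_mem hx2] at h1
  have h2 := theta_Ja h1
  rw [theta_of_mem N hm hx1] at h2
  exact h2

theorem dm_eq_finrank {m N l d : ℕ} (hm : m ≤ N) (hd : d ≤ l) :
    dm (Ad m d) (I N l) = Module.finrank ℚ (Ad m d) := by
  have h := dm_add (V := Ad m d) (I N l)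
  rw [Ad_inf hm hd, finrank_bot, add_zero] at h
  exact h

/-- The Hilbert series of the image of `A m` in the quotient of `P`. -/
theorem hilb_P (m N l d : ℕ) (hm : m ≤ N + 1) :
    (dm (Ad m d) (I (N + 1) l) : ℚ) = (SS m (N + 1) l).coeff d := by
  refine le_antisymm (upper m N l d) ?_
  have h1 := lower m N l d d
  have h2 := finrank_Ad_ge m (N + 1) (l + d) d hm (Nat.le_add_left d l)
  rw [dm_eq_finrank hm (Nat.le_add_left d l)] at h1
  linarith

end Pool.Agent.Lib.MP_1c30b8_co
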