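import Pool.Agent.Lib.MP_1c30b8_co.Bound

/-!
# The truncated product formula
-/

open Polynomial

namespace Pool.Agent.Lib.MP_1c30b8_co

/-- The product of `1 - q^s`, `s ≤ m`. -/
noncomputable def qp (m : ℕ) : ℚ[X] := ∏ s ∈ Finset.range m, (1 - X ^ (s + 1))

theorem qp_succ (m : ℕ) : qp (m + 1) = qp m * (1 - X ^ (m + 1)) := Finset.prod_range_succ _ _

theorem prod_zero {n i : ℕ} (h : n < i) :
    ∏ s ∈ Finset.range i, (1 - X ^ (n - s) : ℚ[X]) = 0 :=
  Finset.prod_eq_zero (Finset.mem_range.2 h) (by simp)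

theorem qb_mul_qp (n i : ℕ) : qb n i * qp i = ∏ s ∈ Finset.range i, (1 - X ^ (n - s)) := by
  induction n generalizing i with
  | zero =>
    rcases i with _ | i
    · simp [qb_zero_right, qp]
    · rw [qb_zero_succ, zero_mul, prod_zero (by omega)]
  | succ n ih =>
    rcases i with _ | i
    · simp [qb_zero_right, qp]
    · rw [qb_succ_succ, add_mul, mul_assoc (X ^ (i + 1)), ih, qp_succ, ← mul_assoc, ih,
        Finset.prod_range_succ, Finset.prod_range_succ' _ i]
      by_cases hi : n < i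
      · rw [prod_zero hi]
        have : ∏ k ∈ Finset.range i, (1 - X ^ (n + 1 - (k + 1)) : ℚ[X]) = 0 := by
          simp only [Nat.add_sub_add_right]
          exact prod_zero hi
        rw [this]
        ring
      · obtain ⟨c, rfl⟩ := Nat.exists_eq_add_of_le (not_lt.1 hi)
        simp only [Nat.add_sub_add_right, Nat.sub_zero]
        rw [show i + c - i = c by omega]
        ring

/-- The basic sum. -/
noncomputable def V (m M l : ℕ) : ℚ[X] := ∑ L ∈ Finset.range l, X ^ (M * (L - m)) * qb L m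

theorem V_rec (m M l : ℕ) : V (m + 1) M l * (1 - X ^ (M + (m + 1))) =
    V m M l - X ^ (M * (l - (m + 1))) * qb l (m + 1) := by
  have h1 : V (m + 1) M (l + 1) = V (m + 1) M l + X ^ (M * (l - (m + 1))) * qb l (m + 1) := by
    rw [V, Finset.sum_range_succ, ← V]
  have h2 : V (m + 1) M (l + 1) = V m M l + X ^ (M + (m + 1)) * V (m + 1) M l := by
    rw [V, Finset.sum_range_succ', qb_zero_succ, mul_zero, add_zero, V, V, Finset.mul_sum,
      ← Finset.sum_add_distrib]
    refine Finset.sum_congr rfl fun L _ => ?_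
    rw [Nat.add_sub_add_right, qb_succ_succ, mul_add]
    congr 1
    by_cases hL : L < m + 1
    · rw [qb_eq_zero hL]; ring
    · obtain ⟨c, rfl⟩ := Nat.exists_eq_add_of_le (not_lt.1 hL)
      rw [show m + 1 + c - m = c + 1 by omega, show m + 1 + c - (m + 1) = c by omega]
      ring
  rw [mul_sub, mul_one]
  linear_combination (-1 : ℚ[X]) * h1 + h2

theorem V_dvd (m M l : ℕ) (hM : M ≠ 0) :
    X ^ l ∣ X ^ m * (V m M l * ∏ s ∈ Finset.range (m + 1), (1 - X ^ (M + s)) - 1 : ℚ[X]) := by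
  induction m with
  | zero =>
    have h : V 0 M l * ∏ s ∈ Finset.range (0 + 1), (1 - X ^ (M + s)) - 1 =
        - (X ^ (M * l) : ℚ[X]) := by
      rw [zero_add, Finset.prod_range_one, add_zero, V]
      induction l with
      | zero => simp
      | succ l ih =>
        rw [Finset.sum_range_succ, add_mul]
        rw [Nat.sub_zero, qb_zero_right]
        linear_combination ih
    rw [h, pow_zero, one_mul, dvd_neg]
    apply pow_dvd_pow
    exact Nat.le_mul_of_pos_left l (Nat.pos_of_ne_zero hM)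
  | succ m ih =>
    have h : X ^ (m + 1) * (V (m + 1) M l *
        ∏ s ∈ Finset.range (m + 1 + 1), (1 - X ^ (M + s)) - 1 : ℚ[X]) =
        X * (X ^ m * (V m M l * ∏ s ∈ Finset.range (m + 1), (1 - X ^ (M + s)) - 1)) -
        X ^ (m + 1 + M * (l - (m + 1))) * qb l (m + 1) *
          ∏ s ∈ Finset.range (m + 1), (1 - X ^ (M + s)) := by
      rw [Finset.prod_range_succ _ (m + 1)]
      linear_combination (X ^ (m + 1) * ∏ s ∈ Finset.range (m + 1), (1 - X ^ (M + s))) *
        V_rec m M l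
    rw [h]
    refine dvd_sub (Dvd.dvd.mul_left ih _) ?_
    by_cases hl : l < m + 1
    · rw [qb_eq_zero hl]; simp
    · rw [mul_assoc]
      refine Dvd.dvd.mul_right (pow_dvd_pow _ ?_) _
      obtain ⟨c, rfl⟩ := Nat.exists_eq_add_of_le (not_lt.1 hl)
      rw [show m + 1 + c - (m + 1) = c by omega]
      have := Nat.le_mul_of_pos_left c (Nat.pos_of_ne_zero hM)
      omega

/-- The increment of `SS` in `m`. -/
noncomputable def TT (m N l : ℕ) : ℚ[X] :=
  ∑ L ∈ Finset.range l, X ^ ((N - m) * (L - m) + m + 1) * qb N (m + 1) * qb L m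

theorem SS_succ (m N l : ℕ) : SS (m + 1) N l = SS m N l + TT m N l := by
  rw [SS, SS, TT, add_assoc, ← Finset.sum_add_distrib]
  congr 1
  refine Finset.sum_congr rfl fun L _ => ?_
  rw [kc, Finset.sum_range_succ, ← kc]

theorem TT_eq (m N l : ℕ) : TT m N l = X ^ (m + 1) * qb N (m + 1) * V m (N - m) l := by
  rw [TT, V, Finset.mul_sum]
  refine Finset.sum_congr rfl fun L _ => ?_
  ring

theorem TT_dvd (m N l : ℕ) (h : m + 1 ≤ N) :
    X ^ (l + 1) ∣ TT m N l * qp (m + 1) - X ^ (m + 1) := by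
  have h1 := V_dvd m (N - m) l (by omega)
  have h2 : qb N (m + 1) * qp (m + 1) = ∏ s ∈ Finset.range (m + 1), (1 - X ^ (N - m + s)) := by
    rw [qb_mul_qp, ← Finset.prod_range_reflect]
    refine Finset.prod_congr rfl fun s hs => ?_
    rw [Finset.mem_range] at hs
    congr 2
    omega
  have h3 : TT m N l * qp (m + 1) - X ^ (m + 1) =
      X * (X ^ m * (V m (N - m) l * (qb N (m + 1) * qp (m + 1)) - 1)) := by
    rw [TT_eq]; ring
  rw [h3, h2, pow_succ']
  exact mul_dvd_mul_left _ h1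

theorem SS_dvd (m N l : ℕ) (h : m ≤ N) : X ^ (l + 1) ∣ SS m N l * qp m - 1 := by
  induction m with
  | zero =>
    have : SS 0 N l * qp 0 - 1 = 0 := by simp [SS, kc, qp]
    rw [this]; exact dvd_zero _
  | succ m ih =>
    have h1 : SS (m + 1) N l * qp (m + 1) - 1 = (SS m N l * qp m - 1) * (1 - X ^ (m + 1)) +
        (TT m N l * qp (m + 1) - X ^ (m + 1)) := by
      rw [SS_succ, add_mul, qp_succ]; ring
    rw [h1]
    exact dvd_add (Dvd.dvd.mul_right (ih (by omega)) _) (TT_dvd m N l h)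

theorem SS_rec_dvd (m N l : ℕ) (h : m + 1 ≤ N) :
    X ^ (l + 1) ∣ SS (m + 1) N l * (1 - X ^ (m + 1)) - SS m N l := by
  have h1 := SS_dvd m N l (by omega)
  have h2 := SS_dvd (m + 1) N l h
  have h3 : SS (m + 1) N l * (1 - X ^ (m + 1)) - SS m N l =
      - (SS (m + 1) N l * (1 - X ^ (m + 1)) - SS m N l) * (SS m N l * qp m - 1) +
      ((SS (m + 1) N l * qp (m + 1) - 1) - (SS m N l * qp m - 1)) * SS m N l := by
    rw [qp_succ]; ring
  rw [h3]
  exact dvd_add (Dvd.dvd.mul_left h1 _) (Dvd.dvd.mul_right (dvd_sub h2 h1) _)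

theorem SS_coeff (m N l d : ℕ) (h : m + 1 ≤ N) (hd : d ≤ l) : (SS (m + 1) N l).coeff d =
    (SS m N l).coeff d + if m + 1 ≤ d then (SS (m + 1) N l).coeff (d - (m + 1)) else 0 := by
  have h1 := (Polynomial.X_pow_dvd_iff.1 (SS_rec_dvd m N l h)) d (by omega)
  have h2 : SS (m + 1) N l * (1 - X ^ (m + 1)) - SS m N l =
      SS (m + 1) N l - (SS m N l + X ^ (m + 1) * SS (m + 1) N l) := by ring
  rw [h2, coeff_sub, sub_eq_zero, coeff_add_X_pow] at h1
  exact h1

end Pool.Agent.Lib.MP_1c30b8_co
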