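import Pool.Agent.Lib.MP_1c30b8_co.Defs
import Pool.Agent.Lib.MP_1c30b8_co.QId

/-!
# Comparison of the closed forms
-/

open Polynomial

namespace Pool.Agent.Lib.MP_1c30b8_co

theorem qInt_mul (n : ℕ) : qInt n * (1 - X) = 1 - X ^ n := by
  rw [qInt]
  exact geom_sum_mul_neg X n

theorem qFact_succ (n : ℕ) : qFact (n + 1) = qFact n * qInt (n + 1) := Finset.prod_range_succ _ _

theorem qFact_mul (n : ℕ) : qFact n * (1 - X) ^ n = qp n := by
  induction n with
  | zero => simp [qFact, qp]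
  | succ n ih => rw [qFact_succ, qp_succ, ← ih, ← qInt_mul]; ring

theorem one_sub_X_pow_ne (n : ℕ) : (1 - X ^ (n + 1) : ℚ[X]) ≠ 0 := by
  intro h
  have := congrArg (Polynomial.eval 0) h
  simp at this

theorem qp_ne_zero (n : ℕ) : qp n ≠ 0 :=
  Finset.prod_ne_zero_iff.2 fun s _ => one_sub_X_pow_ne s

theorem qFact_ne_zero (n : ℕ) : qFact n ≠ 0 := by
  intro h
  have := qFact_mul n
  rw [h, zero_mul] at this
  exact qp_ne_zero n this.symm

theorem qp_split (i c : ℕ) :
    (∏ s ∈ Finset.range i, (1 - X ^ (i + c - s))) * qp c = qp (i + c) := by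
  rw [← Finset.prod_range_reflect, qp, qp, add_comm i c, Finset.prod_range_add, mul_comm]
  congr 1
  refine Finset.prod_congr rfl fun s hs => ?_
  rw [Finset.mem_range] at hs
  congr 2
  omega

theorem qb_mul_qp_mul (i c : ℕ) : qb (i + c) i * (qp i * qp c) = qp (i + c) := by
  rw [← mul_assoc, qb_mul_qp, qp_split]

theorem qb_mul_qFact (i c : ℕ) : qb (i + c) i * (qFact i * qFact c) = qFact (i + c) := by
  have h := qb_mul_qp_mul i c
  rw [← qFact_mul, ← qFact_mul, ← qFact_mul, pow_add] at h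
  have h1 : ((1 - X) ^ i * (1 - X) ^ c : ℚ[X]) ≠ 0 := by
    have : (1 - X : ℚ[X]) ≠ 0 := by simpa using one_sub_X_pow_ne 0
    exact mul_ne_zero (pow_ne_zero _ this) (pow_ne_zero _ this)
  apply mul_right_cancel₀ h1
  linear_combination h

theorem qBinom_eq {n r : ℕ} (h : r ≤ n) : qBinom n r = qb n r := by
  obtain ⟨c, rfl⟩ := Nat.exists_eq_add_of_le h
  rw [qBinom, Nat.add_sub_cancel_left, ← qb_mul_qFact]
  exact mul_div_cancel_right₀ _ (mul_ne_zero (qFact_ne_zero _) (qFact_ne_zero _))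

theorem qb_symm (i j : ℕ) : qb (i + j) i = qb (i + j) j := by
  have h1 := qb_mul_qp_mul i j
  have h2 := qb_mul_qp_mul j i
  rw [add_comm j i] at h2
  apply mul_right_cancel₀ (mul_ne_zero (qp_ne_zero i) (qp_ne_zero j))
  rw [h1, ← h2]; ring

theorem V_eq (i M l : ℕ) (hi : i ≤ l) :
    V i M l = ∑ j ∈ Finset.range (l - i), X ^ (j * M) * qBinom (i + j) j := by
  obtain ⟨c, rfl⟩ := Nat.exists_eq_add_of_le hi
  rw [V, Finset.sum_range_add, Finset.sum_eq_zero, zero_add, Nat.add_sub_cancel_left]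
  · refine Finset.sum_congr rfl fun j _ => ?_
    rw [Nat.add_sub_cancel_left, qBinom_eq (Nat.le_add_left j i), qb_symm, mul_comm M]
  · intro L hL
    rw [Finset.mem_range] at hL
    rw [qb_eq_zero hL, mul_zero]

/-- The claimed Hilbert series in the form of the problem. -/
theorem SS_eq (m k l : ℕ) (h : m ≤ min k l) :
    SS m k l = 1 + ∑ i ∈ Finset.Icc 1 m, X ^ i * qBinom k i * qBinom' l i k := by
  induction m with
  | zero => simp [SS, kc]
  | succ m ih =>
    rw [Finset.sum_Icc_succ_top (by omega), ← add_assoc, ← ih (by omega), SS_succ, TT_eq,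
      V_eq _ _ _ (by omega), qBinom_eq (by omega : m + 1 ≤ k), qBinom']
    congr 2
    rw [show l - (m + 1) + 1 = l - m by omega, show k - (m + 1) + 1 = k - m by omega]
    refine Finset.sum_congr rfl fun j _ => ?_
    rw [show m + 1 + j - 1 = m + j by omega]

end Pool.Agent.Lib.MP_1c30b8_co
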