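import Mathlib

/-!
# Formal exponential integrals over a commutative algebra over the rationals

For a power series `c` let `E c` be the unique power series `F` with `F' = c F` and `F(0) = 1`.
-/

open PowerSeries

namespace Pool.Agent.Lib.MP_1c30b8_co

variable {S T : Type*} [CommRing S] [Algebra ℚ S] [CommRing T] [Algebra ℚ T]

/-- Coefficients of the solution of `F' = c F`, `F(0) = 1`. -/
noncomputable def expCoeff (c : ℕ → S) : ℕ → S
  | 0 => 1
  | (n + 1) => (algebraMap ℚ S (1 / ((n : ℚ) + 1))) *
      ∑ i : Fin (n + 1), c i * expCoeff c (n - i)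
decreasing_by omega

/-- The solution of `F' = c F`, `F(0) = 1`. -/
noncomputable def E (c : S⟦X⟧) : S⟦X⟧ := PowerSeries.mk (expCoeff fun n => coeff n c)

theorem E_const (c : S⟦X⟧) : constantCoeff (E c) = 1 := by
  rw [← coeff_zero_eq_constantCoeff_apply, E, coeff_mk, expCoeff]

theorem E_deriv (c : S⟦X⟧) : d⁄dX S (E c) = c * E c := by
  ext n
  rw [coeff_derivative, coeff_mul]
  have h : coeff (n + 1) (E c) = (algebraMap ℚ S (1 / ((n : ℚ) + 1))) *
      ∑ i : Fin (n + 1), coeff (i : ℕ) c * coeff (n - i) (E c) := by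
    rw [E, coeff_mk, expCoeff]
    simp only [coeff_mk]
  rw [h, Finset.Nat.sum_antidiagonal_eq_sum_range_succ_mk, Finset.sum_range]
  have h2 : (algebraMap ℚ S (1 / ((n : ℚ) + 1))) * ((n : S) + 1) = 1 := by
    have : ((n : S) + 1) = algebraMap ℚ S ((n : ℚ) + 1) := by simp
    rw [this, ← map_mul, one_div, inv_mul_cancel₀ (by positivity), map_one]
  calc _ = ((algebraMap ℚ S (1 / ((n : ℚ) + 1))) * ((n : S) + 1)) *
        ∑ i : Fin (n + 1), coeff (i : ℕ) c * coeff (n - i) (E c) := by ring
    _ = _ := by rw [h2, one_mul]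

theorem isUnit_natCast_succ (n : ℕ) : IsUnit ((n : S) + 1) := by
  have : ((n : S) + 1) = algebraMap ℚ S ((n : ℚ) + 1) := by simp
  rw [this]
  exact (IsUnit.mk0 _ (by positivity)).map _

/-- Uniqueness for the homogeneous equation. -/
theorem deriv_eq_zero_unique (c F : S⟦X⟧) (h : d⁄dX S F = c * F) (h0 : constantCoeff F = 0) :
    F = 0 := by
  ext n
  induction n using Nat.strong_induction_on with
  | _ n ih =>
    rcases n with _ | n
    · simpa using h0
    · have h1 : coeff (n + 1) F * ((n : S) + 1) = 0 := by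
        rw [← coeff_derivative, h, coeff_mul]
        refine Finset.sum_eq_zero fun x hx => ?_
        rw [Finset.HasAntidiagonal.mem_antidiagonal] at hx
        rw [ih x.2 (by omega)]
        simp
      have h2 := (isUnit_natCast_succ (S := S) n)
      simpa using (h2.mul_left_eq_zero).1 h1

theorem E_unique (c F : S⟦X⟧) (h : d⁄dX S F = c * F) (h0 : constantCoeff F = 1) : F = E c := by
  have := deriv_eq_zero_unique c (F - E c) (by rw [map_sub, h, E_deriv]; ring)
    (by rw [map_sub, h0, E_const, sub_self])
  exact sub_eq_zero.1 this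

theorem E_add (c c' : S⟦X⟧) : E (c + c') = E c * E c' := by
  symm
  apply E_unique
  · rw [Derivation.leibniz, E_deriv, E_deriv, smul_eq_mul, smul_eq_mul]; ring
  · rw [map_mul, E_const, E_const, one_mul]

theorem E_zero : E (0 : S⟦X⟧) = 1 := by
  symm
  apply E_unique
  · simp
  · simp

theorem E_mul_neg (c : S⟦X⟧) : E c * E (-c) = 1 := by
  rw [← E_add, add_neg_cancel, E_zero]

omit [Algebra ℚ S] [Algebra ℚ T] in
theorem map_derivative (f : S →+* T) (F : S⟦X⟧) :
    PowerSeries.map f (d⁄dX S F) = d⁄dX T (PowerSeries.map f F) := by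
  ext n
  simp [coeff_derivative]

theorem E_map (f : S →+* T) (c : S⟦X⟧) : PowerSeries.map f (E c) = E (PowerSeries.map f c) := by
  apply E_unique
  · rw [← map_derivative, E_deriv, map_mul]
  · rw [← coeff_zero_eq_constantCoeff_apply, coeff_map, coeff_zero_eq_constantCoeff_apply, E_const,
      map_one]

/-- A derivation acting on coefficients. -/
noncomputable def derivMap (D : Derivation ℚ S S) (F : S⟦X⟧) : S⟦X⟧ :=
  PowerSeries.mk fun n => D (coeff n F)

theorem derivMap_mul (D : Derivation ℚ S S) (F G : S⟦X⟧) :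
    derivMap D (F * G) = derivMap D F * G + F * derivMap D G := by
  ext n
  simp only [derivMap, coeff_mk, coeff_mul, map_sum, Derivation.leibniz, smul_eq_mul, map_add]
  rw [← Finset.sum_add_distrib]
  refine Finset.sum_congr rfl fun x _ => ?_
  ring

theorem derivMap_derivative (D : Derivation ℚ S S) (F : S⟦X⟧) :
    derivMap D (d⁄dX S F) = d⁄dX S (derivMap D F) := by
  ext n
  simp only [derivMap, coeff_mk, coeff_derivative, Derivation.leibniz, smul_eq_mul]
  have : D ((n : S) + 1) = 0 := by
    have h : ((n : S) + 1) = algebraMap ℚ S ((n : ℚ) + 1) := by simp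
    rw [h, D.map_algebraMap]
  rw [this]; ring

/-- If `u' = D c` and `u(0) = 0` then `D (E c) = u E c`. -/
theorem derivMap_E (D : Derivation ℚ S S) (c u : S⟦X⟧) (hu : d⁄dX S u = derivMap D c)
    (hu0 : constantCoeff u = 0) : derivMap D (E c) = u * E c := by
  have := deriv_eq_zero_unique c (derivMap D (E c) - u * E c)
    (by
      rw [map_sub, ← derivMap_derivative, E_deriv, derivMap_mul, Derivation.leibniz, E_deriv, hu,
        smul_eq_mul, smul_eq_mul]
      ring)
    (by
      rw [map_sub, map_mul, hu0, zero_mul, sub_zero, ← coeff_zero_eq_constantCoeff_apply, derivMap,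
        coeff_mk, coeff_zero_eq_constantCoeff_apply, E_const, Derivation.map_one_eq_zero])
  exact sub_eq_zero.1 this

end Pool.Agent.Lib.MP_1c30b8_co
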