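import Pool.Agent.Lib.MP_1c30b8_co.QFact
import Pool.Agent.Lib.MP_1c30b8_co.Lower

/-!
# Transfer to the cohomology ring of the Grassmannian
-/

open PowerSeries
open Finset.HasAntidiagonal (antidiagonal mem_antidiagonal)

namespace Pool.Agent.Lib.MP_1c30b8_co

/-- Graded homomorphisms preserve weighted homogeneity. -/
theorem aeval_isWeightedHomogeneous {σ τ : Type*} {w : σ → ℕ} {w' : τ → ℕ}
    (f : σ → MvPolynomial τ ℚ) (hf : ∀ i, (f i).IsWeightedHomogeneous w' (w i))
    {x : MvPolynomial σ ℚ} {d : ℕ} (hx : x.IsWeightedHomogeneous w d) :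
    (MvPolynomial.aeval f x).IsWeightedHomogeneous w' d := by
  induction hx using MvPolynomial.IsWeightedHomogeneous.induction_on with
  | zero => rw [map_zero]; exact MvPolynomial.isWeightedHomogeneous_zero ℚ w' d
  | add p q _ _ hp hq => rw [map_add]; exact hp.add hq
  | monomial s r hr =>
    rw [MvPolynomial.aeval_monomial, MvPolynomial.algebraMap_eq]
    refine MvPolynomial.IsWeightedHomogeneous.C_mul ?_ r
    rw [Finsupp.prod]
    have h := MvPolynomial.IsWeightedHomogeneous.prod s.support (fun i => f i ^ s i)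
      (fun i => s i • w i) (w := w') (fun i _ => (hf i).pow (s i))
    rw [← hr, Finsupp.weight_apply, Finsupp.sum]
    exact h

variable (l k : ℕ)

theorem eGen_hom (i : ℕ) : (eGen l k i).IsWeightedHomogeneous (grWeight l k) i := by
  rcases i with _ | i
  · exact MvPolynomial.isWeightedHomogeneous_one ℚ _
  · rw [eGen]
    split_ifs with h
    · exact MvPolynomial.isWeightedHomogeneous_X ℚ (grWeight l k) (Sum.inl ⟨i, h⟩)
    · exact MvPolynomial.isWeightedHomogeneous_zero ℚ _ _

theorem hGen_hom (j : ℕ) : (hGen l k j).IsWeightedHomogeneous (grWeight l k) j := by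
  rcases j with _ | j
  · exact MvPolynomial.isWeightedHomogeneous_one ℚ _
  · rw [hGen]
    split_ifs with h
    · exact MvPolynomial.isWeightedHomogeneous_X ℚ (grWeight l k) (Sum.inr ⟨j, h⟩)
    · exact MvPolynomial.isWeightedHomogeneous_zero ℚ _ _

/-- The series of the `h_j`. -/
noncomputable def Hs : (GrPoly l k)⟦X⟧ := PowerSeries.mk (hGen l k)

/-- The series of the `(-1)^i e_i`. -/
noncomputable def Es : (GrPoly l k)⟦X⟧ := PowerSeries.mk fun i => (-1) ^ i * eGen l k i

/-- The images of the power sums. -/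
noncomputable def Ps : (GrPoly l k)⟦X⟧ := - (d⁄dX (GrPoly l k) (Hs l k)) * Es l k

theorem Ps_hom (j : ℕ) : (coeff j (Ps l k)).IsWeightedHomogeneous (grWeight l k) (j + 1) := by
  rw [Ps, coeff_mul]
  refine MvPolynomial.IsWeightedHomogeneous.sum _ _ _ fun x hx => ?_
  rw [mem_antidiagonal] at hx
  rw [map_neg, coeff_derivative, Hs, Es, coeff_mk, coeff_mk]
  have h1 : (hGen l k (x.1 + 1) * eGen l k x.2).IsWeightedHomogeneous (grWeight l k)
      (x.1 + 1 + x.2) := (hGen_hom l k _).mul (eGen_hom l k _)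
  have h2 := MvPolynomial.IsWeightedHomogeneous.C_mul h1 (- ((x.1 : ℚ) + 1) * (-1) ^ x.2)
  have h3 : x.1 + 1 + x.2 = j + 1 := by omega
  rw [h3] at h2
  convert h2 using 1
  simp only [map_mul, map_neg, map_add, map_one, map_pow, map_natCast]
  ring

/-- The homomorphism sending the power sums to their expressions. -/
noncomputable def Ph : P →ₐ[ℚ] GrPoly l k := MvPolynomial.aeval fun j => coeff j (Ps l k)

/-- The projection to the cohomology ring. -/
noncomputable def prj : GrPoly l k →ₐ[ℚ] GrRing l k := Ideal.Quotient.mkₐ ℚ (grIdeal l k)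

/-- The composite homomorphism. -/
noncomputable def Phi : P →ₐ[ℚ] GrRing l k := (prj l k).comp (Ph l k)

theorem prj_eq_zero {x : GrPoly l k} : prj l k x = 0 ↔ x ∈ grIdeal l k :=
  Ideal.Quotient.eq_zero_iff_mem

theorem Hs_mul_Es : PowerSeries.map (prj l k : GrPoly l k →+* GrRing l k) (Hs l k) *
    PowerSeries.map (prj l k : GrPoly l k →+* GrRing l k) (Es l k) = 1 := by
  rw [← map_mul]
  ext d : 1
  rw [coeff_map, coeff_mul, coeff_one]
  simp only [Hs, Es, coeff_mk]
  have h1 : ∑ x ∈ antidiagonal d, hGen l k x.1 * ((-1) ^ x.2 * eGen l k x.2) = grRel l k d := by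
    rw [← Finset.Nat.sum_antidiagonal_swap, Finset.Nat.sum_antidiagonal_eq_sum_range_succ_mk,
      grRel]
    refine Finset.sum_congr rfl fun i _ => ?_
    simp only [Prod.fst_swap, Prod.snd_swap]
    ring
  rw [h1]
  split_ifs with hd
  · subst hd
    have : grRel l k 0 = 1 := by simp [grRel, eGen, hGen]
    rw [this]
    exact map_one _
  · have h2 : grRel l k d ∈ grIdeal l k := by
      by_cases h : d ≤ k + l
      · exact Ideal.subset_span ⟨d, Nat.pos_of_ne_zero hd, h, rfl⟩
      · have : grRel l k d = 0 := by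
          rw [grRel]
          refine Finset.sum_eq_zero fun i hi => ?_
          rw [Finset.mem_range] at hi
          by_cases h3 : l < i
          · obtain ⟨i', rfl⟩ := Nat.exists_eq_succ_of_ne_zero (by omega : i ≠ 0)
            rw [Nat.succ_eq_add_one, eGen, dif_neg (by omega)]
            ring
          · obtain ⟨j', hj'⟩ := Nat.exists_eq_succ_of_ne_zero (by omega : d - i ≠ 0)
            rw [hj', Nat.succ_eq_add_one, hGen, dif_neg (by omega)]
            ring
        rw [this]; exact zero_mem _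
    exact (prj_eq_zero l k).2 h2

theorem map_Phi_pS : PowerSeries.map (Phi l k : P →+* GrRing l k) pS =
    PowerSeries.map (prj l k : GrPoly l k →+* GrRing l k) (Ps l k) := by
  ext n : 1
  rw [coeff_map, coeff_map, pS, coeff_mk]
  have : Ph l k (MvPolynomial.X n) = coeff n (Ps l k) := by rw [Ph, MvPolynomial.aeval_X]
  show prj l k (Ph l k (MvPolynomial.X n)) = prj l k _
  rw [this]

theorem map_Phi_aS : PowerSeries.map (Phi l k : P →+* GrRing l k) aS =
    PowerSeries.map (prj l k : GrPoly l k →+* GrRing l k) (Hs l k) := by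
  rw [aS, E_map, map_neg, map_Phi_pS]
  symm
  apply E_unique
  · rw [Ps, map_mul, map_neg, map_derivative]
    linear_combination (- d⁄dX (GrRing l k)
      (PowerSeries.map (prj l k : GrPoly l k →+* GrRing l k) (Hs l k))) * Hs_mul_Es l k
  · rw [← coeff_zero_eq_constantCoeff_apply, coeff_map, Hs, coeff_mk, hGen, map_one]

theorem map_Phi_bS : PowerSeries.map (Phi l k : P →+* GrRing l k) bS =
    PowerSeries.map (prj l k : GrPoly l k →+* GrRing l k) (Es l k) := by
  have h1 := congrArg (PowerSeries.map (Phi l k : P →+* GrRing l k)) aS_mul_bS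
  rw [map_mul, map_one, map_Phi_aS] at h1
  have h2 := Hs_mul_Es l k
  linear_combination (PowerSeries.map (prj l k : GrPoly l k →+* GrRing l k) (Es l k)) * h1 -
    (PowerSeries.map (Phi l k : P →+* GrRing l k) bS) * h2

theorem Phi_a (i : ℕ) : Phi l k (a i) = prj l k (hGen l k i) := by
  have := congrArg (coeff i) (map_Phi_aS l k)
  rw [coeff_map, coeff_map, Hs, coeff_mk] at this
  exact this

theorem Phi_b (i : ℕ) : Phi l k (b i) = prj l k ((-1) ^ i * eGen l k i) := by
  have := congrArg (coeff i) (map_Phi_bS l k)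
  rw [coeff_map, coeff_map, Es, coeff_mk] at this
  exact this

theorem Phi_of_mem {x : P} (hx : x ∈ I k l) : Phi l k x = 0 := by
  have h : I k l ≤ RingHom.ker (Phi l k : P →+* GrRing l k) := by
    rw [I_le_iff]
    refine ⟨fun i hi => ?_, fun j hj => ?_⟩
    · rw [RingHom.mem_ker]
      have : Phi l k (a i) = 0 := by
        rw [Phi_a]
        obtain ⟨i', rfl⟩ := Nat.exists_eq_succ_of_ne_zero (by omega : i ≠ 0)
        rw [Nat.succ_eq_add_one, hGen, dif_neg (by omega), map_zero]
      exact this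
    · rw [RingHom.mem_ker]
      have : Phi l k (b j) = 0 := by
        rw [Phi_b]
        obtain ⟨i', rfl⟩ := Nat.exists_eq_succ_of_ne_zero (by omega : j ≠ 0)
        rw [Nat.succ_eq_add_one, eGen, dif_neg (by omega), mul_zero, map_zero]
      exact this
  exact h hx

/-- The homomorphism in the other direction. -/
noncomputable def Gm : GrPoly l k →ₐ[ℚ] P := MvPolynomial.aeval
  (Sum.elim (fun i : Fin l => (-1) ^ ((i : ℕ) + 1) * b ((i : ℕ) + 1))
    (fun j : Fin k => a ((j : ℕ) + 1)))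

theorem Gm_hom {x : GrPoly l k} {d : ℕ} (hx : x.IsWeightedHomogeneous (grWeight l k) d) :
    Gm l k x ∈ Pd d := by
  refine aeval_isWeightedHomogeneous (w := grWeight l k) (w' := wt) _ ?_ hx
  rintro (i | j)
  · have h := MvPolynomial.IsWeightedHomogeneous.C_mul (mem_Pd.1 (b_mem_Pd ((i : ℕ) + 1)))
      ((-1) ^ ((i : ℕ) + 1))
    rw [map_pow, map_neg, map_one] at h
    exact h
  · exact a_mem_Pd _

theorem Phi_Gm (x : GrPoly l k) : Phi l k (Gm l k x) = prj l k x := by
  have h : (Phi l k).comp (Gm l k) = prj l k := by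
    apply MvPolynomial.algHom_ext
    rintro (i | j)
    · have h1 : Gm l k (MvPolynomial.X (Sum.inl i)) = (-1) ^ ((i : ℕ) + 1) * b ((i : ℕ) + 1) := by
        rw [Gm, MvPolynomial.aeval_X, Sum.elim_inl]
      rw [AlgHom.comp_apply, h1, map_mul, Phi_b, map_pow, map_neg, map_one, map_mul, map_pow,
        map_neg, map_one, ← mul_assoc, ← mul_pow]
      rw [eGen, dif_pos i.2]
      have h2 : (-1 : GrRing l k) * -1 = 1 := by ring
      rw [h2, one_pow, one_mul]
    · have h1 : Gm l k (MvPolynomial.X (Sum.inr j)) = a ((j : ℕ) + 1) := by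
        rw [Gm, MvPolynomial.aeval_X, Sum.elim_inr]
      rw [AlgHom.comp_apply, h1, Phi_a, hGen, dif_pos j.2]
  exact DFunLike.congr_fun h x

/-- The composite of `Gm` with the quotient map. -/
noncomputable def Gq : GrPoly l k →ₐ[ℚ] P ⧸ I k l := (Ideal.Quotient.mkₐ ℚ (I k l)).comp (Gm l k)

theorem Gq_e (i : ℕ) : Gq l k ((-1) ^ i * eGen l k i) = Ideal.Quotient.mk (I k l) (b i) := by
  rcases i with _ | i
  · rw [b_zero, eGen, pow_zero, mul_one, map_one, map_one]
  · rw [eGen]
    split_ifs with h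
    · have h1 : Gm l k (MvPolynomial.X (Sum.inl ⟨i, h⟩)) = (-1) ^ (i + 1) * b (i + 1) := by
        rw [Gm, MvPolynomial.aeval_X, Sum.elim_inl]
      have h2 : Gm l k ((-1) ^ (i + 1) * MvPolynomial.X (Sum.inl ⟨i, h⟩)) = b (i + 1) := by
        rw [map_mul, map_pow, map_neg, map_one, h1, ← mul_assoc, ← mul_pow]
        simp
      show Ideal.Quotient.mk (I k l) _ = _
      exact congrArg _ h2
    · rw [mul_zero, map_zero, Ideal.Quotient.eq_zero_iff_mem.2 (b_mem_I k (by omega))]

theorem Gq_h (i : ℕ) : Gq l k (hGen l k i) = Ideal.Quotient.mk (I k l) (a i) := by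
  rcases i with _ | i
  · rw [a_zero, hGen, map_one, map_one]
  · rw [hGen]
    split_ifs with h
    · have h1 : Gm l k (MvPolynomial.X (Sum.inr ⟨i, h⟩)) = a (i + 1) := by
        rw [Gm, MvPolynomial.aeval_X, Sum.elim_inr]
      show Ideal.Quotient.mk (I k l) _ = _
      exact congrArg _ h1
    · rw [map_zero, Ideal.Quotient.eq_zero_iff_mem.2 (a_mem_I l (by omega))]

theorem map_Gq_Hs : PowerSeries.map (Gq l k : GrPoly l k →+* P ⧸ I k l) (Hs l k) =
    PowerSeries.map (Ideal.Quotient.mk (I k l)) aS := by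
  ext n : 1
  rw [coeff_map, coeff_map, Hs, coeff_mk]
  exact Gq_h l k n

theorem map_Gq_Es : PowerSeries.map (Gq l k : GrPoly l k →+* P ⧸ I k l) (Es l k) =
    PowerSeries.map (Ideal.Quotient.mk (I k l)) bS := by
  ext n : 1
  rw [coeff_map, coeff_map, Es, coeff_mk]
  exact Gq_e l k n

theorem Gq_rel {d : ℕ} (hd : d ≠ 0) : Gq l k (grRel l k d) = 0 := by
  have h1 : grRel l k d = ∑ i ∈ Finset.range (d + 1), hGen l k (d - i) *
      ((-1) ^ i * eGen l k i) := by
    rw [grRel]
    exact Finset.sum_congr rfl fun i _ => by ring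
  have h2 : Gq l k (grRel l k d) = Ideal.Quotient.mk (I k l)
      (∑ x ∈ antidiagonal d, a x.1 * b x.2) := by
    rw [h1, map_sum, ← Finset.Nat.sum_antidiagonal_swap,
      Finset.Nat.sum_antidiagonal_eq_sum_range_succ_mk, map_sum]
    refine Finset.sum_congr rfl fun i _ => ?_
    rw [map_mul, Gq_h, Gq_e, ← map_mul]
    rfl
  rw [h2, sum_a_b d hd, map_zero]

theorem Gq_of_mem {x : GrPoly l k} (hx : x ∈ grIdeal l k) : Gq l k x = 0 := by
  have h : grIdeal l k ≤ RingHom.ker (Gq l k : GrPoly l k →+* P ⧸ I k l) := by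
    rw [grIdeal, Ideal.span_le]
    rintro _ ⟨d, hd, _, rfl⟩
    exact Gq_rel l k (by omega)
  exact h hx

theorem Gq_Ph (x : P) : Gq l k (Ph l k x) = Ideal.Quotient.mk (I k l) x := by
  have h : (Gq l k).comp (Ph l k) = Ideal.Quotient.mkₐ ℚ (I k l) := by
    apply MvPolynomial.algHom_ext
    intro j
    have h1 : Ph l k (MvPolynomial.X j) = coeff j (Ps l k) := by rw [Ph, MvPolynomial.aeval_X]
    rw [AlgHom.comp_apply, h1]
    have h2 : PowerSeries.map (Gq l k : GrPoly l k →+* P ⧸ I k l) (Ps l k) =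
        PowerSeries.map (Ideal.Quotient.mk (I k l)) pS := by
      rw [Ps, map_mul, map_neg, map_derivative, map_Gq_Hs, map_Gq_Es, ← map_derivative,
        ← map_neg, ← map_mul]
      congr 1
      rw [aS, E_deriv, ← aS]
      linear_combination pS * aS_mul_bS
    have h3 := congrArg (coeff j) h2
    rw [coeff_map, coeff_map, pS, coeff_mk] at h3
    exact h3
  exact DFunLike.congr_fun h x

theorem Phi_eq_zero {x : P} : Phi l k x = 0 ↔ x ∈ I k l := by
  refine ⟨fun h => ?_, Phi_of_mem l k⟩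
  have h1 := (prj_eq_zero l k).1 h
  have h2 : Gq l k (Ph l k x) = 0 := Gq_of_mem l k h1
  rw [Gq_Ph] at h2
  exact Ideal.Quotient.eq_zero_iff_mem.1 h2

theorem mem_grPiece {d : ℕ} {r : GrRing l k} : r ∈ grPiece l k d ↔ ∃ x ∈ Pd d, Phi l k x = r := by
  constructor
  · rintro ⟨y, hy, rfl⟩
    exact ⟨Gm l k y, Gm_hom l k hy, Phi_Gm l k y⟩
  · rintro ⟨x, hx, rfl⟩
    exact ⟨Ph l k x, aeval_isWeightedHomogeneous _ (Ps_hom l k) hx, rfl⟩

theorem Pd_le_A {m d : ℕ} (h : d ≤ m) {x : P} (hx : x ∈ Pd d) : x ∈ A m := by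
  rw [A, MvPolynomial.mem_supported]
  intro j hj
  rw [Finset.mem_coe, MvPolynomial.mem_vars_iff_mem_support] at hj
  obtain ⟨s, hs, hjs⟩ := hj
  have h1 : Finsupp.weight wt s = d := hx (MvPolynomial.mem_support_iff.1 hs)
  have h2 : s j * (j + 1) ≤ d := by
    rw [← h1, Finsupp.weight_apply]
    exact Finset.single_le_sum (f := fun i => s i • wt i) (fun i _ => Nat.zero_le _) hjs
  have h3 : 1 * (j + 1) ≤ s j * (j + 1) :=
    Nat.mul_le_mul_right _ (Nat.pos_of_ne_zero (Finsupp.mem_support_iff.1 hjs))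
  rw [Set.mem_Iio]
  omega

theorem cmp_mem_A {m d : ℕ} {x : P} (hx : x ∈ A m) : cmp d x ∈ A m := by
  rw [A, MvPolynomial.mem_supported] at hx ⊢
  refine subset_trans ?_ hx
  intro j hj
  rw [Finset.mem_coe, MvPolynomial.mem_vars_iff_mem_support] at hj ⊢
  obtain ⟨s, hs, hjs⟩ := hj
  refine ⟨s, ?_, hjs⟩
  rw [cmp, MvPolynomial.support_weightedHomogeneousComponent] at hs
  exact (Finset.mem_filter.1 hs).1

theorem map_A (m : ℕ) : (A m).map (Phi l k) = grSub l k m := by
  apply le_antisymm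
  · rw [A, MvPolynomial.supported_eq_adjoin_X, AlgHom.map_adjoin, grSub]
    apply Algebra.adjoin_mono
    rintro _ ⟨_, ⟨j, hj, rfl⟩, rfl⟩
    exact ⟨j + 1, hj, (mem_grPiece l k).2 ⟨_, X_mem_Pd j, rfl⟩⟩
  · rw [grSub, Algebra.adjoin_le_iff]
    rintro r ⟨d, hd, hr⟩
    obtain ⟨x, hx, rfl⟩ := (mem_grPiece l k).1 hr
    exact ⟨x, Pd_le_A hd hx, rfl⟩

theorem map_Ad (m d : ℕ) : (Ad m d).map (Phi l k).toLinearMap =
    Subalgebra.toSubmodule (grSub l k m) ⊓ grPiece l k d := by
  rw [← map_A]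
  apply le_antisymm
  · rintro _ ⟨x, hx, rfl⟩
    exact ⟨⟨x, (Submodule.mem_inf.1 hx).1, rfl⟩,
      (mem_grPiece l k).2 ⟨x, (Submodule.mem_inf.1 hx).2, rfl⟩⟩
  · rintro r ⟨⟨f, hf, rfl⟩, hr2⟩
    obtain ⟨g, hg, hfg⟩ := (mem_grPiece l k).1 hr2
    have h1 : Phi l k (f - g) = 0 := by
      rw [map_sub, sub_eq_zero]; exact hfg.symm
    rw [Phi_eq_zero] at h1
    have h2 := cmp_mem_I d h1
    rw [map_sub, cmp_of_mem hg, ← Phi_eq_zero, map_sub, sub_eq_zero] at h2
    exact ⟨cmp d f, ⟨cmp_mem_A hf, cmp_mem d f⟩, h2.trans hfg⟩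

theorem ker_Phi : LinearMap.ker (Phi l k).toLinearMap = idl (I k l) := by
  ext x
  rw [LinearMap.mem_ker, mem_idl]
  exact Phi_eq_zero l k

theorem finrank_piece (m d : ℕ) : Module.finrank ℚ (Subalgebra.toSubmodule (grSub l k m) ⊓
    grPiece l k d : Submodule ℚ (GrRing l k)) = dm (Ad m d) (I k l) := by
  rw [← map_Ad]
  have h1 := finrank_map_add (V := Ad m d) (Phi l k).toLinearMap
  have h2 := dm_add (V := Ad m d) (I k l)
  rw [ker_Phi] at h1
  omega

end Pool.Agent.Lib.MP_1c30b8_co
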